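import Mathlib

/-!
# A maximal inequality from fourth moments
-/

set_option autoImplicit false

namespace Pool.Agent.K4H10.DN

open Finset

open Classical in
lemma markov4 {ι : Type} (s : Finset ι) (Z : ι → ℝ) (lam B : ℝ) (hl : 0 < lam) (h : ∑ i ∈ s, (Z i) ^ 4 ≤ B) :
    ((s.filter (fun i => lam < |Z i|)).card : ℝ) ≤ B / lam ^ 4 := by
  rw [le_div_iff₀ (by positivity)]
  calc ((s.filter (fun i => lam < |Z i|)).card : ℝ) * lam ^ 4 = ∑ i ∈ s.filter (fun i => lam < |Z i|), lam ^ 4 := by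
        rw [sum_const, nsmul_eq_mul]
    _ ≤ ∑ i ∈ s.filter (fun i => lam < |Z i|), (Z i) ^ 4 := by
        apply sum_le_sum
        intro i hi
        rw [mem_filter] at hi
        have := pow_le_pow_left₀ hl.le hi.2.le 4
        rwa [Even.pow_abs (by decide)] at this
    _ ≤ ∑ i ∈ s, (Z i) ^ 4 := sum_le_sum_of_subset_of_nonneg (filter_subset _ _) (fun i _ _ => by positivity)
    _ ≤ B := h

open Classical in
lemma maxi {ι : Type} (s : Finset ι) (Z : ℕ → ι → ℝ) (c₀ : ℝ) (hc : 0 ≤ c₀) (L : ℕ) : ∀ (a : ℕ) (lam : ℝ), 0 < lam →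
    (∀ a' b', a ≤ a' → a' < b' → b' ≤ a + 2 ^ L → ∑ i ∈ s, (Z b' i - Z a' i) ^ 4 ≤ c₀ * ((b' : ℝ) - a') ^ 2 * s.card) →
    ((s.filter (fun i => ∃ b, b ≤ 2 ^ L ∧ lam < |Z (a + b) i - Z a i|)).card : ℝ) ≤ 11000 * c₀ * 4 ^ L / lam ^ 4 * s.card := by
  induction L with
  | zero =>
    intro a lam hl h
    have h0 := h a (a + 1) le_rfl (by omega) (by simp)
    have h1 := markov4 s (fun i => Z (a + 1) i - Z a i) lam _ hl h0
    have h2 : s.filter (fun i => ∃ b, b ≤ 2 ^ 0 ∧ lam < |Z (a + b) i - Z a i|) ⊆ s.filter (fun i => lam < |Z (a + 1) i - Z a i|) := by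
      intro i hi
      rw [mem_filter] at hi ⊢
      obtain ⟨h3, b, hb, h4⟩ := hi
      refine ⟨h3, ?_⟩
      rw [pow_zero] at hb
      have hb' : b = 0 ∨ b = 1 := by omega
      rcases hb' with rfl | rfl
      · rw [add_zero, sub_self, abs_zero] at h4
        linarith
      · exact h4
    have h3 : ((s.filter (fun i => ∃ b, b ≤ 2 ^ 0 ∧ lam < |Z (a + b) i - Z a i|)).card : ℝ) ≤
        (s.filter (fun i => lam < |Z (a + 1) i - Z a i|)).card := by exact_mod_cast card_le_card h2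
    refine h3.trans (h1.trans ?_)
    push_cast
    have e : c₀ * ((a : ℝ) + 1 - a) ^ 2 * s.card / lam ^ 4 = c₀ / lam ^ 4 * s.card := by ring
    rw [e]
    gcongr
    nlinarith
  | succ L ih =>
    intro a lam hl h
    have hP : (2 : ℕ) ^ (L + 1) = 2 ^ L + 2 ^ L := by ring
    have hP0 : 0 < 2 ^ L := by positivity
    have h1 := ih a (9 / 10 * lam) (by positivity) (fun a' b' h1 h2 h3 => h a' b' h1 h2 (by omega))
    have h2 := ih (a + 2 ^ L) (9 / 10 * lam) (by positivity) (fun a' b' h1 h2 h3 => h a' b' (by omega) h2 (by omega))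
    have h3 := markov4 s (fun i => Z (a + 2 ^ L) i - Z a i) (lam / 10) _ (by positivity)
      (h a (a + 2 ^ L) le_rfl (by omega) (by omega))
    have hsub : s.filter (fun i => ∃ b, b ≤ 2 ^ (L + 1) ∧ lam < |Z (a + b) i - Z a i|) ⊆
        s.filter (fun i => ∃ b, b ≤ 2 ^ L ∧ 9 / 10 * lam < |Z (a + b) i - Z a i|) ∪
        (s.filter (fun i => ∃ b, b ≤ 2 ^ L ∧ 9 / 10 * lam < |Z (a + 2 ^ L + b) i - Z (a + 2 ^ L) i|) ∪
        s.filter (fun i => lam / 10 < |Z (a + 2 ^ L) i - Z a i|)) := by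
      intro i hi
      rw [mem_union, mem_union, mem_filter, mem_filter, mem_filter]
      rw [mem_filter] at hi
      obtain ⟨his, b, hb, hb2⟩ := hi
      rcases le_or_gt b (2 ^ L) with hbL | hbL
      · left
        exact ⟨his, b, hbL, by linarith⟩
      · right
        by_cases hc1 : lam / 10 < |Z (a + 2 ^ L) i - Z a i|
        · right
          exact ⟨his, hc1⟩
        · left
          refine ⟨his, b - 2 ^ L, by omega, ?_⟩
          have e : a + 2 ^ L + (b - 2 ^ L) = a + b := by omega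
          rw [e]
          push Not at hc1
          have h4 : |Z (a + b) i - Z a i| ≤ |Z (a + b) i - Z (a + 2 ^ L) i| + |Z (a + 2 ^ L) i - Z a i| := abs_sub_le _ _ _
          linarith
    have hcard : ((s.filter (fun i => ∃ b, b ≤ 2 ^ (L + 1) ∧ lam < |Z (a + b) i - Z a i|)).card : ℝ) ≤
        ((s.filter (fun i => ∃ b, b ≤ 2 ^ L ∧ 9 / 10 * lam < |Z (a + b) i - Z a i|)).card : ℝ) +
        (((s.filter (fun i => ∃ b, b ≤ 2 ^ L ∧ 9 / 10 * lam < |Z (a + 2 ^ L + b) i - Z (a + 2 ^ L) i|)).card : ℝ) +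
        ((s.filter (fun i => lam / 10 < |Z (a + 2 ^ L) i - Z a i|)).card : ℝ)) := by
      have h4 := (card_le_card hsub).trans (card_union_le _ _)
      have h5 := card_union_le (s.filter (fun i => ∃ b, b ≤ 2 ^ L ∧ 9 / 10 * lam < |Z (a + 2 ^ L + b) i - Z (a + 2 ^ L) i|))
        (s.filter (fun i => lam / 10 < |Z (a + 2 ^ L) i - Z a i|))
      exact_mod_cast h4.trans (by omega)
    refine hcard.trans ((add_le_add h1 (add_le_add h2 h3)).trans ?_)
    have hl4 : 0 < lam ^ 4 := by positivity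
    have hcast : (((a + 2 ^ L : ℕ) : ℝ) - a) = 2 ^ L := by
      push_cast
      ring
    rw [hcast]
    have e1 : ((2 : ℝ) ^ L) ^ 2 = 4 ^ L := by
      rw [← pow_mul, mul_comm, pow_mul]
      norm_num
    rw [e1]
    have e2 : 11000 * c₀ * 4 ^ L / (9 / 10 * lam) ^ 4 * s.card +
        (11000 * c₀ * 4 ^ L / (9 / 10 * lam) ^ 4 * s.card + c₀ * 4 ^ L * s.card / (lam / 10) ^ 4) =
        (22000 * (10 / 9) ^ 4 + 10000) * (c₀ * 4 ^ L / lam ^ 4 * s.card) := by
      field_simp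
      ring
    have e3 : 11000 * c₀ * 4 ^ (L + 1) / lam ^ 4 * s.card = 44000 * (c₀ * 4 ^ L / lam ^ 4 * s.card) := by
      rw [pow_succ]
      ring
    rw [e2, e3]
    have h6 : 0 ≤ c₀ * 4 ^ L / lam ^ 4 * (s.card : ℝ) := by positivity
    have h7 : (22000 * (10 / 9) ^ 4 + 10000 : ℝ) ≤ 44000 := by norm_num
    exact mul_le_mul_of_nonneg_right h7 h6

end Pool.Agent.K4H10.DN
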