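import Pool.Agent.K4H16.CG.Clt

/-!
# The normal distribution function; the functional `min (η, t + η - sup w)⁺`
-/

set_option autoImplicit false

namespace Pool.Agent.K4H10.DN

open Finset Pool.Agent.K4H16.CG MeasureTheory ProbabilityTheory

lemma Phi_mono {a b : ℝ} (h : a ≤ b) : Phi a ≤ Phi b := measureReal_mono (Set.Iic_subset_Iic.2 h)

lemma Phi_lip {a b : ℝ} (h : a ≤ b) : Phi b ≤ Phi a + (b - a) := by
  unfold Phi
  have h1 : Set.Iic b = Set.Iic a ∪ Set.Ioc a b := (Set.Iic_union_Ioc_eq_Iic h).symm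
  have h2 : (gaussianReal 0 1).real (Set.Ioc a b) ≤ b - a := by
    unfold Measure.real
    rw [gaussianReal_apply 0 one_ne_zero]
    have h3 : ∫⁻ x in Set.Ioc a b, gaussianPDF 0 1 x ≤ ENNReal.ofReal (b - a) := by
      calc ∫⁻ x in Set.Ioc a b, gaussianPDF 0 1 x ≤ ∫⁻ _x in Set.Ioc a b, 1 := by
            apply lintegral_mono
            intro x
            unfold gaussianPDF
            rw [← ENNReal.ofReal_one]
            apply ENNReal.ofReal_le_ofReal
            unfold gaussianPDFReal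
            have h4 : Real.exp (-(x - 0) ^ 2 / (2 * ((1 : NNReal) : ℝ))) ≤ 1 := by
              rw [Real.exp_le_one_iff]
              have : 0 ≤ (x - 0) ^ 2 := sq_nonneg _
              have h5 : (0 : ℝ) < 2 * ((1 : NNReal) : ℝ) := by norm_num
              apply div_nonpos_of_nonpos_of_nonneg _ h5.le
              linarith
            have h6 : (√(2 * Real.pi * ((1 : NNReal) : ℝ)))⁻¹ ≤ 1 := by
              apply inv_le_one_of_one_le₀
              rw [Real.one_le_sqrt]
              have := Real.pi_gt_three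
              push_cast
              nlinarith
            calc (√(2 * Real.pi * ((1 : NNReal) : ℝ)))⁻¹ * Real.exp (-(x - 0) ^ 2 / (2 * ((1 : NNReal) : ℝ))) ≤ 1 * 1 := by
                  gcongr
              _ = 1 := one_mul 1
        _ = ENNReal.ofReal (b - a) := by
            rw [setLIntegral_const, Real.volume_Ioc, one_mul]
    have h7 := ENNReal.toReal_mono (by simp) h3
    rw [ENNReal.toReal_ofReal (by linarith)] at h7
    exact h7
  have h8 : (gaussianReal 0 1).real (Set.Iic b) ≤ (gaussianReal 0 1).real (Set.Iic a) + (gaussianReal 0 1).real (Set.Ioc a b) := by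
    rw [h1]
    exact measureReal_union_le _ _
  linarith

lemma Phi_zero : Phi 0 = 1 / 2 := by
  unfold Phi
  have hna : NullSingletonClass (gaussianReal 0 1) := nullSingletonClass_gaussianReal one_ne_zero
  have h1 : (gaussianReal 0 1).map (fun x => -x) = gaussianReal 0 1 := by
    rw [gaussianReal_map_neg, neg_zero]
  have h2 : (gaussianReal 0 1) (Set.Iic 0) = (gaussianReal 0 1) (Set.Ici 0) := by
    conv_lhs => rw [← h1]
    rw [Measure.map_apply measurable_neg measurableSet_Iic]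
    congr 1
    ext x
    simp
  have h3 : (gaussianReal 0 1) (Set.Ici 0) = (gaussianReal 0 1) (Set.Ioi 0) := (measure_congr Ioi_ae_eq_Ici).symm
  have h4 : (gaussianReal 0 1).real (Set.Iic 0) + (gaussianReal 0 1).real (Set.Ioi 0) = 1 := by
    have h5 := measureReal_union (μ := gaussianReal 0 1) (Set.Iic_disjoint_Ioi (le_refl (0 : ℝ))) measurableSet_Ioi
    rw [Set.Iic_union_Ioi] at h5
    rw [← h5]
    simp
  have h6 : (gaussianReal 0 1).real (Set.Iic 0) = (gaussianReal 0 1).real (Set.Ioi 0) := by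
    unfold Measure.real
    rw [h2, h3]
  linarith

lemma Phi_abs (a b : ℝ) : |Phi a - Phi b| ≤ |a - b| := by
  rcases le_total a b with h | h
  · have h1 := Phi_mono h
    have h2 := Phi_lip h
    rw [abs_of_nonpos (by linarith), abs_of_nonpos (by linarith)]
    linarith
  · have h1 := Phi_mono h
    have h2 := Phi_lip h
    rw [abs_of_nonneg (by linarith), abs_of_nonneg (by linarith)]
    linarith

/-- the clamped distance of the level `t + η` from the path -/
noncomputable def cl (t η z : ℝ) : ℝ := max 0 (min η (t + η - z))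

lemma cl_nonneg (t η z : ℝ) : 0 ≤ cl t η z := le_max_left _ _

lemma cl_le (t η z : ℝ) (hη : 0 ≤ η) : cl t η z ≤ η := max_le hη (min_le_left _ _)

lemma cl_lip (t η z z' : ℝ) : cl t η z ≤ cl t η z' + |z - z'| := by
  unfold cl
  have h1 := le_abs_self (z' - z)
  rw [abs_sub_comm] at h1
  have h0 := abs_nonneg (z - z')
  apply max_le
  · have := le_max_left 0 (min η (t + η - z'))
    linarith
  · rcases le_total η (t + η - z') with h | h
    · have h2 : min η (t + η - z') = η := min_eq_left h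
      rw [h2]
      have := le_max_right 0 η
      have h3 := min_le_left η (t + η - z)
      linarith
    · have h2 : min η (t + η - z') = t + η - z' := min_eq_right h
      rw [h2]
      have := le_max_right 0 (t + η - z')
      have h3 := min_le_right η (t + η - z)
      linarith

/-- the clamped distance of the level `t + η` from the maximum of the path -/
noncomputable def Fm (t η : ℝ) (w : ℝ → ℝ) : ℝ := ⨅ u : Set.Icc (0 : ℝ) 1, cl t η (w u)

instance : Nonempty (Set.Icc (0 : ℝ) 1) := ⟨⟨0, by simp⟩⟩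

lemma Fm_bdd (t η : ℝ) (w : ℝ → ℝ) : BddBelow (Set.range fun u : Set.Icc (0 : ℝ) 1 => cl t η (w u)) :=
  ⟨0, by rintro _ ⟨u, rfl⟩; exact cl_nonneg _ _ _⟩

lemma Fm_nonneg (t η : ℝ) (w : ℝ → ℝ) : 0 ≤ Fm t η w := le_ciInf fun _ => cl_nonneg _ _ _

lemma Fm_le (t η : ℝ) (hη : 0 ≤ η) (w : ℝ → ℝ) : Fm t η w ≤ η :=
  (ciInf_le (Fm_bdd t η w) ⟨0, by simp⟩).trans (cl_le _ _ _ hη)

lemma Fm_lip (t η : ℝ) (w w' : ℝ → ℝ) (d : ℝ) (h : ∀ u, 0 ≤ u → u ≤ 1 → |w u - w' u| ≤ d) : Fm t η w ≤ Fm t η w' + d := by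
  have h1 : Fm t η w - d ≤ Fm t η w' := by
    apply le_ciInf
    intro u
    have h2 := ciInf_le (Fm_bdd t η w) u
    have h3 := cl_lip t η (w u) (w' u)
    have h4 := h u u.2.1 u.2.2
    have h5 : Fm t η w ≤ cl t η (w u) := h2
    linarith
  linarith

lemma Fm_eq (t η : ℝ) (hη : 0 ≤ η) (w : ℝ → ℝ) (h : ∀ u, 0 ≤ u → u ≤ 1 → w u ≤ t) : Fm t η w = η := by
  apply le_antisymm (Fm_le t η hη w)
  apply le_ciInf
  intro u
  have h1 := h u u.2.1 u.2.2
  unfold cl
  rw [min_eq_left (by linarith)]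
  exact le_max_right _ _

lemma Fm_pos (t η : ℝ) (w : ℝ → ℝ) (h : 0 < Fm t η w) (u : ℝ) (hu0 : 0 ≤ u) (hu1 : u ≤ 1) : w u ≤ t + η := by
  have h1 : Fm t η w ≤ cl t η (w u) := ciInf_le (Fm_bdd t η w) ⟨u, hu0, hu1⟩
  have h2 : 0 < cl t η (w u) := lt_of_lt_of_le h h1
  unfold cl at h2
  rw [lt_max_iff] at h2
  rcases h2 with h2 | h2
  · exact absurd h2 (lt_irrefl _)
  · have := (lt_min_iff.1 h2).2
    linarith

open Classical in
lemma Fm_lower {ι : Type} (s : Finset ι) (P : ι → ℝ → ℝ) (t η : ℝ) (hη : 0 ≤ η) :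
    η * ((s.filter (fun i => ∀ u, 0 ≤ u → u ≤ 1 → P i u ≤ t)).card : ℝ) ≤ ∑ i ∈ s, Fm t η (P i) := by
  calc η * ((s.filter (fun i => ∀ u, 0 ≤ u → u ≤ 1 → P i u ≤ t)).card : ℝ) =
        ∑ i ∈ s.filter (fun i => ∀ u, 0 ≤ u → u ≤ 1 → P i u ≤ t), Fm t η (P i) := by
          rw [mul_comm, ← nsmul_eq_mul, ← sum_const]
          exact sum_congr rfl fun i hi => (Fm_eq t η hη (P i) (mem_filter.1 hi).2).symm
    _ ≤ ∑ i ∈ s, Fm t η (P i) := sum_le_sum_of_subset_of_nonneg (filter_subset _ _) fun i _ _ => Fm_nonneg _ _ _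

open Classical in
lemma Fm_upper {ι : Type} (s : Finset ι) (P : ι → ℝ → ℝ) (t η : ℝ) (hη : 0 ≤ η) :
    ∑ i ∈ s, Fm t η (P i) ≤ η * ((s.filter (fun i => ∀ u, 0 ≤ u → u ≤ 1 → P i u ≤ t + η)).card : ℝ) := by
  have h1 : ∀ i ∈ s, Fm t η (P i) ≤ if ∀ u, 0 ≤ u → u ≤ 1 → P i u ≤ t + η then η else 0 := by
    intro i _
    split_ifs with h
    · exact Fm_le t η hη _
    · by_contra hcon
      push Not at hcon
      exact h fun u hu0 hu1 => Fm_pos t η (P i) hcon u hu0 hu1
  refine (sum_le_sum h1).trans ?_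
  rw [← sum_filter, sum_const, nsmul_eq_mul, mul_comm]

end Pool.Agent.K4H10.DN
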