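import Pool.Agent.K4H10.DN.A7
import Pool.Agent.K4H10.DN.A8

/-!
# The law of the maximum
-/

set_option autoImplicit false
set_option linter.unusedSectionVars false

namespace Pool.Agent.K4H10.DN

open Finset Pool.Agent.K4H16.CG

lemma BL_Fm (t η : ℝ) (hη : 0 ≤ η) (hη1 : η ≤ 1) : BL (Fm t η) := by
  refine ⟨fun w => ?_, fun w w' d h => ?_⟩
  · rw [abs_of_nonneg (Fm_nonneg _ _ _)]
    exact (Fm_le t η hη w).trans hη1
  · have h1 := Fm_lip t η w w' d h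
    have h2 := Fm_lip t η w' w d (fun u hu0 hu1 => by rw [abs_sub_comm]; exact h u hu0 hu1)
    rw [abs_le]
    constructor <;> linarith

lemma walk_sg (N : ℕ) (e : Fin N → Bool) (u : ℝ) : walk N e u = (sg e ⌊u * N⌋₊ : ℝ) / √N := by
  unfold walk sg
  push_cast
  rfl

lemma walk_below (N : ℕ) (hN : 0 < N) (e : Fin N → Bool) (t : ℝ) :
    (∀ u : ℝ, 0 ≤ u → u ≤ 1 → walk N e u ≤ t) ↔ ∀ m ≤ N, (sg e m : ℝ) ≤ t * √N := by
  have hN0 : (0 : ℝ) < N := by exact_mod_cast hN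
  have hs : 0 < √(N : ℝ) := Real.sqrt_pos.2 hN0
  constructor
  · intro h m hm
    have h1 := h ((m : ℝ) / N) (by positivity) (by
      rw [div_le_one hN0]
      exact_mod_cast hm)
    rw [walk_sg, div_mul_cancel₀ _ hN0.ne', Nat.floor_natCast, div_le_iff₀ hs] at h1
    exact h1
  · intro h u hu0 hu1
    rw [walk_sg, div_le_iff₀ hs]
    apply h
    apply Nat.floor_le_of_le
    nlinarith

open Classical in
lemma walk_clt (ε : ℝ) (hε : 0 < ε) : ∃ N₀ : ℝ, ∀ N : ℕ, N₀ ≤ N → ∀ t : ℝ,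
    |((univ.filter (fun e : Fin N → Bool => (sg e N : ℝ) ≤ t * √N)).card : ℝ) - 2 ^ N * Phi t| ≤ ε * 2 ^ N := by
  obtain ⟨k, η, V₀, hη, H⟩ := clt ε hε
  refine ⟨4 * V₀, fun N hN t => ?_⟩
  have h1 := H.2 (Fin N) (fun _ => Bool) (ctr (θw N)) (ctr_abs (θw N) (by
      intro j b
      unfold θw
      cases b <;> simp)) (ctr_avg (θw N)) (by
      rw [VV_w]
      linarith) (Fin N → Bool) univ (fun e => e) 0 le_rfl (equi_w N k) (by
      rw [mul_zero]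
      exact hη.le) t
  have hc : (univ : Finset (Fin N → Bool)).card = 2 ^ N := by simp
  rw [hc] at h1
  push_cast at h1
  have e1 : ∀ e : Fin N → Bool, SS (ctr (θw N)) e = (sg e N : ℝ) / 2 := by
    intro e
    rw [← Sv_w]
    unfold SS Sv upto
    rw [filter_true_of_mem]
    intro j _
    unfold τw
    omega
  have h4' : √(4 : ℝ) = 2 := by
    rw [show (4 : ℝ) = 2 ^ 2 by norm_num]
    exact Real.sqrt_sq (by norm_num)
  have e2 : univ.filter (fun e : Fin N → Bool => SS (ctr (θw N)) e ≤ t * √(VV (ctr (θw N)))) =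
      univ.filter (fun e : Fin N → Bool => (sg e N : ℝ) ≤ t * √N) := by
    apply filter_congr
    intro e _
    rw [e1, VV_w, Real.sqrt_div' _ (by norm_num : (0 : ℝ) ≤ 4), h4']
    constructor <;> intro h <;> linarith
  rw [e2] at h1
  exact h1

open Classical in
/-- the law of the maximum of the walk -/
lemma walk_max (ε : ℝ) (hε : 0 < ε) : ∃ N₀ : ℝ, 1 ≤ N₀ ∧ ∀ N : ℕ, N₀ ≤ N → ∀ t : ℝ, 0 ≤ t →
    |((univ.filter (fun e : Fin N → Bool => ∀ u : ℝ, 0 ≤ u → u ≤ 1 → walk N e u ≤ t)).card : ℝ) - 2 ^ N * (2 * Phi t - 1)| ≤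
      ε * 2 ^ N := by
  obtain ⟨N₁, H⟩ := walk_clt (ε / 4) (by positivity)
  refine ⟨max 1 (max N₁ ((4 / ε) ^ 2)), le_max_left _ _, fun N hN t ht => ?_⟩
  have hN1 : (1 : ℝ) ≤ N := (le_max_left _ _).trans hN
  have hN2 : N₁ ≤ N := ((le_max_left _ _).trans (le_max_right _ _)).trans hN
  have hN3 : (4 / ε) ^ 2 ≤ (N : ℝ) := ((le_max_right _ _).trans (le_max_right _ _)).trans hN
  have hN0 : (0 : ℝ) < N := by linarith
  have hNn : 0 < N := by exact_mod_cast hN0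
  have hs : 0 < √(N : ℝ) := Real.sqrt_pos.2 hN0
  have hs2 : 4 / ε ≤ √(N : ℝ) := Real.le_sqrt_of_sq_le hN3
  have hs3 : 1 / √(N : ℝ) ≤ ε / 4 := by
    rw [div_le_iff₀ hε] at hs2
    rw [div_le_iff₀ hs]
    linarith
  have e1 : univ.filter (fun e : Fin N → Bool => ∀ u : ℝ, 0 ≤ u → u ≤ 1 → walk N e u ≤ t) =
      univ.filter (fun e : Fin N → Bool => ∀ m ≤ N, (sg e m : ℝ) ≤ t * √N) := by
    apply filter_congr
    intro e _
    exact walk_below N hNn e t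
  have h1 := stay_below N (t * √N) (by positivity)
  have hz : ∀ z : ℝ, |((univ.filter (fun e : Fin N → Bool => (sg e N : ℝ) ≤ z)).card : ℝ) - 2 ^ N * Phi (z / √N)| ≤ ε / 4 * 2 ^ N := by
    intro z
    have h2 := H N hN2 (z / √N)
    rw [div_mul_cancel₀ _ hs.ne'] at h2
    exact h2
  have h2 := hz ((⌊t * √N⌋ : ℤ) : ℝ)
  have h3 := hz ((⌊t * √N⌋ + 1 : ℤ) : ℝ)
  have hfl := Int.floor_le (t * √(N : ℝ))
  have hfl2 := Int.lt_floor_add_one (t * √(N : ℝ))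
  have h4 : |Phi (((⌊t * √N⌋ : ℤ) : ℝ) / √N) - Phi t| ≤ ε / 4 := by
    refine (Phi_abs _ _).trans (le_trans ?_ hs3)
    rw [abs_le]
    constructor
    · rw [neg_le_sub_iff_le_add, ← add_div, le_div_iff₀ hs]
      linarith
    · rw [sub_le_iff_le_add, div_le_iff₀ hs, add_mul, div_mul_cancel₀ _ hs.ne']
      linarith
  have h5 : |Phi (((⌊t * √N⌋ + 1 : ℤ) : ℝ) / √N) - Phi t| ≤ ε / 4 := by
    refine (Phi_abs _ _).trans (le_trans ?_ hs3)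
    push_cast
    rw [abs_le]
    constructor
    · rw [neg_le_sub_iff_le_add, ← add_div, le_div_iff₀ hs]
      linarith
    · rw [sub_le_iff_le_add, div_le_iff₀ hs, add_mul, div_mul_cancel₀ _ hs.ne']
      linarith
  have hp : (0 : ℝ) < 2 ^ N := by positivity
  rw [e1, h1]
  obtain ⟨A, hA⟩ : ∃ A, A = ((univ.filter (fun e : Fin N → Bool => (sg e N : ℝ) ≤ ((⌊t * √N⌋ : ℤ) : ℝ))).card : ℝ) := ⟨_, rfl⟩
  obtain ⟨B, hB⟩ : ∃ B, B = ((univ.filter (fun e : Fin N → Bool => (sg e N : ℝ) ≤ ((⌊t * √N⌋ + 1 : ℤ) : ℝ))).card : ℝ) := ⟨_, rfl⟩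
  rw [← hA] at h2 ⊢
  rw [← hB] at h3 ⊢
  rw [abs_le] at h2 h3 h4 h5 ⊢
  constructor
  · nlinarith [h2.1, h3.1, h4.1, h5.1]
  · nlinarith [h2.2, h3.2, h4.2, h5.2]

variable {J : Type} [Fintype J] [DecidableEq J] {R : J → Type} [∀ j, Fintype (R j)] [∀ j, Nonempty (R j)]

/-- the path is below the level iff all the partial sums are -/
lemma pth_below (f : ∀ j, R j → ℝ) (τ : J → ℕ) (x : ℕ) (hV : 0 < Cv f τ x) (ω : ∀ j, R j) (t : ℝ) :
    (∀ u : ℝ, 0 ≤ u → u ≤ 1 → pth f τ x ω u ≤ t) ↔ ∀ y ≤ x, Sv f τ y ω ≤ t * √(Cv f τ x) := by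
  have hs : 0 < √(Cv f τ x) := Real.sqrt_pos.2 hV
  constructor
  · intro h y hy
    have h0 : 0 ≤ Cv f τ y := var_nonneg _ _
    have h1 := h (Cv f τ y / Cv f τ x) (by positivity) (by
      rw [div_le_one hV]
      exact Cv_mono f τ hy)
    unfold pth at h1
    rw [div_mul_cancel₀ _ hV.ne', div_le_iff₀ hs] at h1
    have h2 : y ≤ clk (Cv f τ) x (Cv f τ y) := clk_max _ _ _ _ hy le_rfl
    have h3 : Cv f τ (clk (Cv f τ) x (Cv f τ y)) ≤ Cv f τ y :=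
      Nat.findGreatest_spec (P := fun z => Cv f τ z ≤ Cv f τ y) hy le_rfl
    have h4 : Sv f τ (clk (Cv f τ) x (Cv f τ y)) ω - Sv f τ y ω = 0 := by
      rw [Sv_sub f τ h2]
      apply zero_var
      rw [← Cv_sub f τ h2]
      linarith
    linarith
  · intro h u _ _
    unfold pth
    rw [div_le_iff₀ hs]
    exact h _ (clk_le _ _ _)

open Classical in
/-- **The invariance principle and the law of the maximum** for the partial sums of marks over a well distributed family. -/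
theorem donsker (ε : ℝ) (hε : 0 < ε) : ∃ (m : ℕ) (η V₀ : ℝ) (N₀ : ℕ), 4 ≤ m ∧ 0 < η ∧ 1 ≤ V₀ ∧
    ∀ (J : Type) [Fintype J] [DecidableEq J] (R : J → Type) [∀ j, Fintype (R j)] [∀ j, Nonempty (R j)]
      (θ : ∀ j, R j → ℝ), (∀ j b, θ j b = 0 ∨ θ j b = 1) → ∀ (τ : J → ℕ) (x : ℕ), Function.Injective τ → (∀ j, 1 ≤ τ j) →
      (∀ j, τ j ≤ x) → V₀ ≤ VV (ctr θ) →
    ∀ (ι : Type) (s : Finset ι) (ρ : ι → ∀ j, R j) (δ : ℝ), s.Nonempty → 0 ≤ δ → Equi s ρ m δ →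
      (Fintype.card J : ℝ) ^ m * δ ≤ η →
      (∀ F, BL F → ∀ N : ℕ, N₀ ≤ N →
        |(∑ i ∈ s, F (pth (ctr θ) τ x (ρ i))) / s.card - (∑ e : Fin N → Bool, F (walk N e)) / 2 ^ N| ≤ ε) ∧
      ∀ t : ℝ, 0 ≤ t → |((s.filter (fun i => ∀ y ≤ x, Sv (ctr θ) τ y (ρ i) ≤ t * √(VV (ctr θ)))).card : ℝ) -
        s.card * (2 * Phi t - 1)| ≤ ε * s.card := by
  obtain ⟨η₁, hη₁⟩ : ∃ η₁ : ℝ, η₁ = min 1 (ε / 8) := ⟨_, rfl⟩
  have hη₁0 : 0 < η₁ := by rw [hη₁]; exact lt_min one_pos (by positivity)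
  have hη₁1 : η₁ ≤ 1 := by rw [hη₁]; exact min_le_left _ _
  have hη₁ε : η₁ ≤ ε / 8 := by rw [hη₁]; exact min_le_right _ _
  obtain ⟨M, e, hcmp, m, η, V₀, hm, hη, hV₀, H⟩ := consts (η₁ * (ε / 4)) (by positivity)
  obtain ⟨N₁, hN₁, hwm⟩ := walk_max (ε / 4) (by positivity)
  obtain ⟨N₀, hN₀⟩ := exists_nat_gt (max (4 * V₀) N₁)
  have hN₀a : 4 * V₀ < N₀ := (le_max_left _ _).trans_lt hN₀
  have hN₀b : N₁ < N₀ := (le_max_right _ _).trans_lt hN₀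
  refine ⟨m, η, V₀, N₀, hm, hη, hV₀, ?_⟩
  intro J _ _ R _ _ θ hθ τ x hτ hτ1 hτx hV ι s ρ δ hs hδ heq hJ
  have hgood := H J R θ hθ τ x hτ hτ1 hτx hV ι s ρ δ hδ heq hJ
  have hsc : (0 : ℝ) < s.card := by exact_mod_cast hs.card_pos
  have key : ∀ F, BL F → ∀ N : ℕ, N₀ ≤ N →
        |(∑ i ∈ s, F (pth (ctr θ) τ x (ρ i))) / s.card - (∑ e : Fin N → Bool, F (walk N e)) / 2 ^ N| ≤ η₁ * (ε / 4) := by
    intro F hF N hN
    have hNr : (N₀ : ℝ) ≤ N := by exact_mod_cast hN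
    have hw := walk_good M e (η₁ * (ε / 4)) m η V₀ hη hV₀ H N (by linarith)
    have h1 := hcmp ι s (fun i => pth (ctr θ) τ x (ρ i)) (Fin N → Bool) univ (fun e => walk N e) hs univ_nonempty hgood hw F hF
    have hc : (univ : Finset (Fin N → Bool)).card = 2 ^ N := by simp
    rw [hc] at h1
    push_cast at h1
    exact h1
  refine ⟨fun F hF N hN => (key F hF N hN).trans ?_, fun t ht => ?_⟩
  · nlinarith
  have hVpos : 0 < Cv (ctr θ) τ x := by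
    rw [Cv_top _ τ x hτx]
    linarith
  have hset : s.filter (fun i => ∀ y ≤ x, Sv (ctr θ) τ y (ρ i) ≤ t * √(VV (ctr θ))) =
      s.filter (fun i => ∀ u : ℝ, 0 ≤ u → u ≤ 1 → pth (ctr θ) τ x (ρ i) u ≤ t) := by
    apply filter_congr
    intro i _
    rw [pth_below (ctr θ) τ x hVpos, Cv_top _ τ x hτx]
  rw [hset]
  obtain ⟨p, hp⟩ : ∃ p : ℝ, p = ((s.filter (fun i => ∀ u : ℝ, 0 ≤ u → u ≤ 1 → pth (ctr θ) τ x (ρ i) u ≤ t)).card : ℝ) / s.card := ⟨_, rfl⟩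
  have hp0 : 0 ≤ p := by rw [hp]; positivity
  have hps : ((s.filter (fun i => ∀ u : ℝ, 0 ≤ u → u ≤ 1 → pth (ctr θ) τ x (ρ i) u ≤ t)).card : ℝ) = p * s.card := by
    rw [hp]
    field_simp
  have hw2 : (0 : ℝ) < 2 ^ N₀ := by positivity
  have hmax : ∀ z : ℝ, 0 ≤ z → |((univ.filter (fun e : Fin N₀ → Bool => ∀ u : ℝ, 0 ≤ u → u ≤ 1 → walk N₀ e u ≤ z)).card : ℝ) / 2 ^ N₀ -
      (2 * Phi z - 1)| ≤ ε / 4 := by
    intro z hz
    have h1 := hwm N₀ hN₀b.le z hz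
    have e1 : ((univ.filter (fun e : Fin N₀ → Bool => ∀ u : ℝ, 0 ≤ u → u ≤ 1 → walk N₀ e u ≤ z)).card : ℝ) / 2 ^ N₀ -
      (2 * Phi z - 1) = (((univ.filter (fun e : Fin N₀ → Bool => ∀ u : ℝ, 0 ≤ u → u ≤ 1 → walk N₀ e u ≤ z)).card : ℝ) - 2 ^ N₀ * (2 * Phi z - 1)) / 2 ^ N₀ := by
      field_simp
    rw [e1, abs_div, abs_of_pos hw2, div_le_iff₀ hw2]
    exact h1
  -- the upper bound
  have hup : p ≤ 2 * Phi t - 1 + ε := by
    have h1 := Fm_lower s (fun i => pth (ctr θ) τ x (ρ i)) t η₁ hη₁0.le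
    have h2 := Fm_upper (univ : Finset (Fin N₀ → Bool)) (fun e => walk N₀ e) t η₁ hη₁0.le
    have h3 := (abs_le.1 (key (Fm t η₁) (BL_Fm t η₁ hη₁0.le hη₁1) N₀ le_rfl)).2
    have h4 := (abs_le.1 (hmax (t + η₁) (by linarith))).2
    have h5 := Phi_lip (show t ≤ t + η₁ by linarith)
    rw [hps] at h1
    have h6 : η₁ * p ≤ (∑ i ∈ s, Fm t η₁ (pth (ctr θ) τ x (ρ i))) / s.card := by
      rw [le_div_iff₀ hsc]
      linarith
    have h7 : (∑ e : Fin N₀ → Bool, Fm t η₁ (walk N₀ e)) / 2 ^ N₀ ≤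
        η₁ * (((univ.filter (fun e : Fin N₀ → Bool => ∀ u : ℝ, 0 ≤ u → u ≤ 1 → walk N₀ e u ≤ t + η₁)).card : ℝ) / 2 ^ N₀) := by
      rw [← mul_div_assoc]
      gcongr
    have h8 : η₁ * p ≤ η₁ * (((univ.filter (fun e : Fin N₀ → Bool => ∀ u : ℝ, 0 ≤ u → u ≤ 1 → walk N₀ e u ≤ t + η₁)).card : ℝ) / 2 ^ N₀ + ε / 4) := by
      linarith
    have h9 := le_of_mul_le_mul_left h8 hη₁0
    linarith
  -- the lower bound
  have hlow : 2 * Phi t - 1 - ε ≤ p := by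
    rcases le_or_gt η₁ t with htη | htη
    · have h1 := Fm_upper s (fun i => pth (ctr θ) τ x (ρ i)) (t - η₁) η₁ hη₁0.le
      have h2 := Fm_lower (univ : Finset (Fin N₀ → Bool)) (fun e => walk N₀ e) (t - η₁) η₁ hη₁0.le
      have h3 := (abs_le.1 (key (Fm (t - η₁) η₁) (BL_Fm (t - η₁) η₁ hη₁0.le hη₁1) N₀ le_rfl)).1
      have h4 := (abs_le.1 (hmax (t - η₁) (by linarith))).1
      have h5 := Phi_lip (show t - η₁ ≤ t by linarith)
      rw [sub_add_cancel, hps] at h1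
      have h6 : (∑ i ∈ s, Fm (t - η₁) η₁ (pth (ctr θ) τ x (ρ i))) / s.card ≤ η₁ * p := by
        rw [div_le_iff₀ hsc]
        linarith
      have h7 : η₁ * (((univ.filter (fun e : Fin N₀ → Bool => ∀ u : ℝ, 0 ≤ u → u ≤ 1 → walk N₀ e u ≤ t - η₁)).card : ℝ) / 2 ^ N₀) ≤
          (∑ e : Fin N₀ → Bool, Fm (t - η₁) η₁ (walk N₀ e)) / 2 ^ N₀ := by
        rw [← mul_div_assoc]
        gcongr
      have h8 : η₁ * (((univ.filter (fun e : Fin N₀ → Bool => ∀ u : ℝ, 0 ≤ u → u ≤ 1 → walk N₀ e u ≤ t - η₁)).card : ℝ) / 2 ^ N₀ - ε / 4) ≤ η₁ * p := by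
        linarith
      have h9 := le_of_mul_le_mul_left h8 hη₁0
      linarith
    · have h1 := Phi_lip ht
      rw [Phi_zero] at h1
      linarith
  rw [hps]
  have e1 : p * s.card - s.card * (2 * Phi t - 1) = (p - (2 * Phi t - 1)) * s.card := by ring
  rw [e1, abs_mul, abs_of_pos hsc]
  apply mul_le_mul_of_nonneg_right _ hsc.le
  rw [abs_le]
  constructor <;> linarith

end Pool.Agent.K4H10.DN
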