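import Pool.Agent.K4H10.DN.A10
import Pool.Agent.K4H16.CG.LTfam

/-!
# The invariance principle for families of elliptic curves
-/

set_option autoImplicit false
set_option linter.unusedSectionVars false

namespace Pool.Agent.K4H10.DN

open Finset Pool.Agent.K4H16.CG

section flip

variable {J : Type} [Fintype J] [DecidableEq J] {R : J → Type} [∀ j, Fintype (R j)] [∀ j, Nonempty (R j)]

lemma ctr_flip (θ : ∀ j, R j → ℝ) : ctr (fun j b => 1 - θ j b) = fun j b => -ctr θ j b := by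
  funext j b
  unfold ctr
  have h1 : avg (fun b => 1 - θ j b) = 1 - avg (θ j) := by
    unfold avg
    have hp0 : (Fintype.card (R j) : ℝ) ≠ 0 := by exact_mod_cast Fintype.card_ne_zero
    rw [sum_sub_distrib, sum_const, card_univ, nsmul_eq_mul, mul_one]
    field_simp
  rw [h1]
  ring

lemma VV_flip (θ : ∀ j, R j → ℝ) : VV (ctr (fun j b => 1 - θ j b)) = VV (ctr θ) := by
  rw [ctr_flip]
  unfold VV
  refine sum_congr rfl fun j _ => ?_
  congr 1
  funext b
  ring

lemma Sv_flip (θ : ∀ j, R j → ℝ) (τ : J → ℕ) (y : ℕ) (ω : ∀ j, R j) :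
    Sv (ctr (fun j b => 1 - θ j b)) τ y ω = -Sv (ctr θ) τ y ω := by
  rw [ctr_flip]
  unfold Sv
  rw [sum_neg_distrib]

end flip

variable {n r : ℕ}

/-- the marks of the family -/
noncomputable def θf (W : Fin r → WeierstrassCurve (MvPolynomial (Fin n) ℤ)) (φ : ℕ → (Fin r → Option ℤ) → ℝ) (x : ℕ) (j : Prs x)
    (b : Fin n → ZMod (j : ℕ)) : ℝ := loc W φ j (rep j b)

def τf (x : ℕ) (j : Prs x) : ℕ := (j : ℕ)

lemma θf_avg (W : Fin r → WeierstrassCurve (MvPolynomial (Fin n) ℤ)) (φ : ℕ → (Fin r → Option ℤ) → ℝ) (x : ℕ) (j : Prs x) :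
    avg (θf W φ x j) = meanMod j (loc W φ j) := by
  rw [meanMod_eq]
  rfl

lemma sum_upto (x y : ℕ) (hy : y ≤ x) (g : ℕ → ℝ) :
    ∑ j ∈ upto (τf x) y, g (j : ℕ) = ∑ p ∈ (range (y + 1)).filter Nat.Prime, g p := by
  unfold upto τf
  rw [sum_filter, sum_coe_sort ((range (x + 1)).filter Nat.Prime) (fun p => if p ≤ y then g p else 0), ← sum_filter]
  congr 1
  ext p
  simp only [mem_filter, mem_range]
  constructor
  · rintro ⟨⟨_, h2⟩, h3⟩
    exact ⟨by omega, h2⟩
  · rintro ⟨h1, h2⟩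
    exact ⟨⟨by omega, h2⟩, by omega⟩

lemma Cv_f (W : Fin r → WeierstrassCurve (MvPolynomial (Fin n) ℤ)) (φ : ℕ → (Fin r → Option ℤ) → ℝ)
    (hφ : ∀ p d, φ p d = 0 ∨ φ p d = 1) (x y : ℕ) (hy : y ≤ x) : Cv (ctr (θf W φ x)) (τf x) y = cov W φ φ y := by
  have hθ : ∀ (j : Prs x) b, θf W φ x j b = 0 ∨ θf W φ x j b = 1 := fun j b => hφ _ _
  unfold Cv var cov
  rw [sum_congr rfl fun j _ => ctr_sq (θf W φ x) hθ j]
  have h1 : ∀ j : Prs x, avg (θf W φ x j) * (1 - avg (θf W φ x j)) =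
      (fun p => meanMod p (fun c => loc W φ p c * loc W φ p c) - meanMod p (loc W φ p) * meanMod p (loc W φ p)) (j : ℕ) := by
    intro j
    have h2 : (fun c => loc W φ j c * loc W φ j c) = loc W φ j := by
      funext c
      unfold loc
      rcases hφ j (fun i => frob (member (W i) c) j) with h | h <;> rw [h] <;> norm_num
    simp only
    rw [h2, θf_avg]
    ring
  rw [sum_congr rfl fun j _ => h1 j]
  exact sum_upto x y hy (fun p => meanMod p (fun c => loc W φ p c * loc W φ p c) - meanMod p (loc W φ p) * meanMod p (loc W φ p))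

lemma Sv_f (W : Fin r → WeierstrassCurve (MvPolynomial (Fin n) ℤ)) (φ : ℕ → (Fin r → Option ℤ) → ℝ) (x y : ℕ) (hy : y ≤ x)
    (v : Fin n → ℤ) : Sv (ctr (θf W φ x)) (τf x) y (fun j i => (v i : ZMod (j : ℕ))) = total W φ y v - mean W φ y := by
  unfold Sv total mean
  rw [← sum_sub_distrib]
  have h1 : ∀ j : Prs x, ctr (θf W φ x) j (fun i => (v i : ZMod (j : ℕ))) =
      (fun p => loc W φ p v - meanMod p (loc W φ p)) (j : ℕ) := by
    intro j
    unfold ctr
    rw [θf_avg]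
    simp only
    congr 1
    exact loc_rep j W φ v
  rw [sum_congr rfl fun j _ => h1 j]
  exact sum_upto x y hy (fun p => loc W φ p v - meanMod p (loc W φ p))

lemma pth_f (W : Fin r → WeierstrassCurve (MvPolynomial (Fin n) ℤ)) (φ : ℕ → (Fin r → Option ℤ) → ℝ)
    (hφ : ∀ p d, φ p d = 0 ∨ φ p d = 1) (x : ℕ) (v : Fin n → ℤ) (u : ℝ) :
    pth (ctr (θf W φ x)) (τf x) x (fun j i => (v i : ZMod (j : ℕ))) u = path W φ x v u := by
  unfold pth path
  have h1 : clk (Cv (ctr (θf W φ x)) (τf x)) x (u * Cv (ctr (θf W φ x)) (τf x) x) = clk (cov W φ φ) x (u * cov W φ φ x) := by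
    unfold clk
    rw [Cv_f W φ hφ x x le_rfl]
    have h2 : ∀ k ≤ x, ((Cv (ctr (θf W φ x)) (τf x) k ≤ u * cov W φ φ x) ↔ (cov W φ φ k ≤ u * cov W φ φ x)) := by
      intro k hk
      rw [Cv_f W φ hφ x k hk]
    have key : ∀ m ≤ x, Nat.findGreatest (fun y => Cv (ctr (θf W φ x)) (τf x) y ≤ u * cov W φ φ x) m =
        Nat.findGreatest (fun y => cov W φ φ y ≤ u * cov W φ φ x) m := by
      intro m hm
      induction m with
      | zero => rfl
      | succ m ih =>
        rw [Nat.findGreatest_succ, Nat.findGreatest_succ, ih (by omega)]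
        simp only [h2 (m + 1) hm]
    exact key x le_rfl
  rw [h1, Cv_f W φ hφ x x le_rfl, Sv_f W φ x _ (clk_le _ _ _) v]

open Classical in
/-- **The invariance principle for families.** -/
theorem family_donsker (n : ℕ) (ε : ℝ) (hε : 0 < ε) : ∃ (A : ℕ) (V₀ : ℝ) (N₀ : ℕ),
    ∀ (r : ℕ) (W : Fin r → WeierstrassCurve (MvPolynomial (Fin n) ℤ)) (φ : ℕ → (Fin r → Option ℤ) → ℝ),
      (∀ p d, φ p d = 0 ∨ φ p d = 1) →
    ∀ x : ℕ, V₀ ≤ cov W φ φ x → ∀ (M : Fin n → ℤ) (N : Fin n → ℕ), (∀ i, x ^ A ≤ N i) →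
      (∀ F, BL F → ∀ k : ℕ, N₀ ≤ k →
        |(∑ v ∈ box M N, F (path W φ x v)) / (box M N).card - (∑ e : Fin k → Bool, F (walk k e)) / 2 ^ k| ≤ ε) ∧
      ∀ t : ℝ, 0 ≤ t →
        |(((box M N).filter (fun v => ∀ y ≤ x, total W φ y v ≤ mean W φ y + t * √(cov W φ φ x))).card : ℝ) -
          (box M N).card * (2 * Phi t - 1)| ≤ ε * (box M N).card ∧
        |(((box M N).filter (fun v => ∀ y ≤ x, mean W φ y - t * √(cov W φ φ x) ≤ total W φ y v)).card : ℝ) -
          (box M N).card * (2 * Phi t - 1)| ≤ ε * (box M N).card := by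
  obtain ⟨m, η, V₀, N₀, hm, hη, hV₀, H⟩ := donsker ε hε
  refine ⟨2 * m + 1, max V₀ (2 * n / η), N₀, ?_⟩
  intro r W φ hφ x hV M N hN
  have hφ1 : ∀ p d, |φ p d| ≤ 1 := by
    intro p d
    rcases hφ p d with h | h <;> rw [h] <;> norm_num
  have hV1 : V₀ ≤ cov W φ φ x := (le_max_left _ _).trans hV
  have hV2 : 2 * n / η ≤ (x : ℝ) := ((le_max_right _ _).trans hV).trans (cov_le W φ hφ1 x)
  have hx : 0 < x := by
    rcases Nat.eq_zero_or_pos x with h | h
    · exfalso
      have h1 := cov_le W φ hφ1 x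
      rw [h] at h1 hV1
      simp only [Nat.cast_zero] at h1
      linarith
    · exact h
  have hxr : (0 : ℝ) < x := by exact_mod_cast hx
  have heq := equi_box (fun j : Prs x => (j : ℕ)) (Prs.cop x) x hx (fun j => j.le) m (x ^ (2 * m + 1)) (by positivity) n M N hN
  have hJ : (Fintype.card (Prs x) : ℝ) ^ m * (n * (2 * (x : ℝ) ^ m / ((x ^ (2 * m + 1) : ℕ) : ℝ))) ≤ η := by
    have h1 : (Fintype.card (Prs x) : ℝ) ≤ x := by exact_mod_cast Prs.card_le x
    calc (Fintype.card (Prs x) : ℝ) ^ m * (n * (2 * (x : ℝ) ^ m / ((x ^ (2 * m + 1) : ℕ) : ℝ)))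
        ≤ (x : ℝ) ^ m * (n * (2 * (x : ℝ) ^ m / ((x ^ (2 * m + 1) : ℕ) : ℝ))) := by gcongr
      _ = 2 * n / x := by
          push_cast
          field_simp
          ring
      _ ≤ η := by
          rw [div_le_iff₀ hη] at hV2
          rw [div_le_iff₀ hxr]
          linarith
  have hne : (box M N).Nonempty := by
    unfold Pool.Agent.K4H16.CG.box
    rw [Fintype.piFinset_nonempty]
    intro i
    have h1 : 0 < N i := lt_of_lt_of_le (by positivity) (hN i)
    exact ⟨M i + N i, by rw [mem_Ioc]; omega⟩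
  have hθ : ∀ (j : Prs x) b, θf W φ x j b = 0 ∨ θf W φ x j b = 1 := fun j b => hφ _ _
  have hθ' : ∀ (j : Prs x) b, (fun j b => 1 - θf W φ x j b) j b = 0 ∨ (fun j b => 1 - θf W φ x j b) j b = 1 := by
    intro j b
    rcases hθ j b with h | h
    · right
      simp only [h, sub_zero]
    · left
      simp only [h, sub_self]
  have hτ : Function.Injective (τf x) := fun a b h => Subtype.ext h
  have hτ1 : ∀ j, 1 ≤ τf x j := fun j => j.prime.pos
  have hτx : ∀ j, τf x j ≤ x := fun j => j.le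
  have hVV : VV (ctr (θf W φ x)) = cov W φ φ x := by
    rw [← Cv_top (ctr (θf W φ x)) (τf x) x hτx, Cv_f W φ hφ x x le_rfl]
  have h1 := H (Prs x) (fun j => Fin n → ZMod (j : ℕ)) (θf W φ x) hθ (τf x) x hτ hτ1 hτx (by rw [hVV]; exact hV1)
    (Fin n → ℤ) (box M N) (fun v j i => (v i : ZMod (j : ℕ))) (n * (2 * (x : ℝ) ^ m / ((x ^ (2 * m + 1) : ℕ) : ℝ)))
    hne (by positivity) heq hJ
  have h2 := H (Prs x) (fun j => Fin n → ZMod (j : ℕ)) (fun j b => 1 - θf W φ x j b) hθ' (τf x) x hτ hτ1 hτx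
    (by rw [VV_flip, hVV]; exact hV1)
    (Fin n → ℤ) (box M N) (fun v j i => (v i : ZMod (j : ℕ))) (n * (2 * (x : ℝ) ^ m / ((x ^ (2 * m + 1) : ℕ) : ℝ)))
    hne (by positivity) heq hJ
  refine ⟨fun F hF k hk => ?_, fun t ht => ⟨?_, ?_⟩⟩
  · have h3 := h1.1 F hF k hk
    have h4 : ∀ v : Fin n → ℤ, pth (ctr (θf W φ x)) (τf x) x (fun j i => (v i : ZMod (j : ℕ))) = path W φ x v := by
      intro v
      funext u
      exact pth_f W φ hφ x v u
    simp only [h4] at h3
    exact h3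
  · have h3 := h1.2 t ht
    have e : (box M N).filter (fun v => ∀ y ≤ x, Sv (ctr (θf W φ x)) (τf x) y (fun j i => (v i : ZMod (j : ℕ))) ≤ t * √(VV (ctr (θf W φ x)))) =
        (box M N).filter (fun v => ∀ y ≤ x, total W φ y v ≤ mean W φ y + t * √(cov W φ φ x)) := by
      apply filter_congr
      intro v _
      refine forall_congr' fun y => forall_congr' fun hy => ?_
      rw [Sv_f W φ x y hy v, hVV]
      constructor <;> intro h <;> linarith
    rw [e] at h3
    exact h3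
  · have h3 := h2.2 t ht
    have e : (box M N).filter (fun v => ∀ y ≤ x, Sv (ctr (fun j b => 1 - θf W φ x j b)) (τf x) y (fun j i => (v i : ZMod (j : ℕ))) ≤
          t * √(VV (ctr (fun j b => 1 - θf W φ x j b)))) =
        (box M N).filter (fun v => ∀ y ≤ x, mean W φ y - t * √(cov W φ φ x) ≤ total W φ y v) := by
      apply filter_congr
      intro v _
      refine forall_congr' fun y => forall_congr' fun hy => ?_
      rw [Sv_flip, Sv_f W φ x y hy v, VV_flip, hVV]
      constructor <;> intro h <;> linarith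
    rw [e] at h3
    exact h3

end Pool.Agent.K4H10.DN
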