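import Mathlib

/-!
# Comparison of the means of Lipschitz functions for families with nearly the same joint law
-/

set_option autoImplicit false

namespace Pool.Agent.K4H10.DN

open Finset

/-- closeness of the joint distribution function to a product -/
def Rect {ι : Type} {M : ℕ} (Φ : ℝ → ℝ) (e : ℝ) (s : Finset ι) (Y : ι → Fin M → ℝ) : Prop :=
  ∀ c : Fin M → ℝ, |((s.filter (fun i => ∀ k, Y i k ≤ c k)).card : ℝ) - s.card * ∏ k, Φ (c k)| ≤ e * s.card

/-- bounded second moments -/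
def Sec {ι : Type} {M : ℕ} (C : ℝ) (s : Finset ι) (Y : ι → Fin M → ℝ) : Prop :=
  ∀ k, ∑ i ∈ s, (Y i k) ^ 2 ≤ C * s.card

open Classical in
lemma cell_close {ι : Type} {M : ℕ} (Φ : ℝ → ℝ) (e : ℝ) (s : Finset ι) (Y : ι → Fin M → ℝ) (h : Rect Φ e s Y)
    (l u : Fin M → ℝ) (hlu : ∀ k, l k ≤ u k) :
    |((s.filter (fun i => ∀ k, l k < Y i k ∧ Y i k ≤ u k)).card : ℝ) - s.card * ∏ k, (Φ (u k) - Φ (l k))| ≤ 2 ^ M * (e * s.card) := by
  have h1 : ((s.filter (fun i => ∀ k, l k < Y i k ∧ Y i k ≤ u k)).card : ℝ) =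
      ∑ t ∈ (univ : Finset (Fin M)).powerset, (-1) ^ t.card *
        ((s.filter (fun i => ∀ k, Y i k ≤ if k ∈ t then l k else u k)).card : ℝ) := by
    have e1 : ∀ i ∈ s, (if ∀ k, l k < Y i k ∧ Y i k ≤ u k then (1 : ℝ) else 0) =
        ∑ t ∈ (univ : Finset (Fin M)).powerset, (-1) ^ t.card * (if ∀ k, Y i k ≤ (if k ∈ t then l k else u k) then (1 : ℝ) else 0) := by
      intro i _
      have e2 : (if ∀ k, l k < Y i k ∧ Y i k ≤ u k then (1 : ℝ) else 0) =
          ∏ k, ((if Y i k ≤ u k then (1 : ℝ) else 0) - (if Y i k ≤ l k then (1 : ℝ) else 0)) := by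
        have e3 : ∀ k, ((if Y i k ≤ u k then (1 : ℝ) else 0) - (if Y i k ≤ l k then (1 : ℝ) else 0)) =
            if l k < Y i k ∧ Y i k ≤ u k then (1 : ℝ) else 0 := by
          intro k
          by_cases h1 : Y i k ≤ l k
          · have h2 := h1.trans (hlu k)
            rw [if_pos h1, if_pos h2, if_neg (fun h3 => absurd h3.1 (not_lt.2 h1)), sub_self]
          · push Not at h1
            by_cases h2 : Y i k ≤ u k
            · rw [if_pos h2, if_neg (not_le.2 h1), if_pos ⟨h1, h2⟩, sub_zero]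
            · rw [if_neg h2, if_neg (not_le.2 h1), if_neg (fun h3 => h2 h3.2), sub_zero]
        rw [prod_congr rfl fun k _ => e3 k]
        by_cases hall : ∀ k, l k < Y i k ∧ Y i k ≤ u k
        · rw [if_pos hall, prod_congr rfl fun k _ => if_pos (hall k), prod_const_one]
        · rw [if_neg hall]
          push Not at hall
          obtain ⟨k, hk⟩ := hall
          symm
          apply prod_eq_zero (mem_univ k)
          rw [if_neg]
          intro h3
          exact absurd h3.2 (not_le.2 (hk h3.1))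
      rw [e2, prod_sub]
      refine sum_congr rfl fun t ht => ?_
      rw [mul_assoc]
      congr 1
      by_cases hall : ∀ k, Y i k ≤ (if k ∈ t then l k else u k)
      · rw [if_pos hall]
        have h1 : ∏ k ∈ univ \ t, (if Y i k ≤ u k then (1 : ℝ) else 0) = 1 := by
          apply prod_eq_one
          intro k hk
          rw [mem_sdiff] at hk
          have := hall k
          rw [if_neg hk.2] at this
          rw [if_pos this]
        have h2 : ∏ k ∈ t, (if Y i k ≤ l k then (1 : ℝ) else 0) = 1 := by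
          apply prod_eq_one
          intro k hk
          have := hall k
          rw [if_pos hk] at this
          rw [if_pos this]
        rw [h1, h2, mul_one]
      · rw [if_neg hall]
        push Not at hall
        obtain ⟨k, hk⟩ := hall
        by_cases hkt : k ∈ t
        · rw [if_pos hkt] at hk
          rw [prod_eq_zero hkt (if_neg (not_le.2 hk)), mul_zero]
        · rw [if_neg hkt] at hk
          rw [prod_eq_zero (mem_sdiff.2 ⟨mem_univ k, hkt⟩) (if_neg (not_le.2 hk)), zero_mul]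
    rw [card_filter]
    push_cast
    rw [sum_congr rfl e1, sum_comm]
    refine sum_congr rfl fun t _ => ?_
    rw [← mul_sum, card_filter]
    push_cast
    rfl
  have h2 : (s.card : ℝ) * ∏ k, (Φ (u k) - Φ (l k)) =
      ∑ t ∈ (univ : Finset (Fin M)).powerset, (-1) ^ t.card * (s.card * ∏ k, Φ (if k ∈ t then l k else u k)) := by
    rw [prod_sub, mul_sum]
    refine sum_congr rfl fun t ht => ?_
    have h3 : ∏ k, Φ (if k ∈ t then l k else u k) = (∏ k ∈ univ \ t, Φ (u k)) * ∏ k ∈ t, Φ (l k) := by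
      rw [← prod_sdiff (mem_powerset.1 ht)]
      congr 1
      · apply prod_congr rfl
        intro k hk
        rw [if_neg (mem_sdiff.1 hk).2]
      · apply prod_congr rfl
        intro k hk
        rw [if_pos hk]
    rw [h3]
    ring
  rw [h1, h2, ← sum_sub_distrib]
  refine (abs_sum_le_sum_abs _ _).trans ?_
  have h3 : ∀ t ∈ (univ : Finset (Fin M)).powerset,
      |(-1) ^ t.card * ((s.filter (fun i => ∀ k, Y i k ≤ if k ∈ t then l k else u k)).card : ℝ) -
        (-1) ^ t.card * (s.card * ∏ k, Φ (if k ∈ t then l k else u k))| ≤ e * s.card := by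
    intro t _
    rw [← mul_sub, abs_mul, abs_pow, abs_neg, abs_one, one_pow, one_mul]
    have h4 := h (fun k => if k ∈ t then l k else u k)
    convert h4 using 3
  refine (sum_le_sum h3).trans ?_
  rw [sum_const, card_powerset, card_univ, Fintype.card_fin, nsmul_eq_mul]
  push_cast
  exact le_rfl

/-- the approximating sum -/
noncomputable def gsum {M : ℕ} (Φ : ℝ → ℝ) (n L : ℕ) (G : (Fin M → ℝ) → ℝ) : ℝ :=
  ∑ q ∈ Fintype.piFinset (fun _ : Fin M => Ioc (-((n : ℤ) * L)) ((n : ℤ) * L)),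
    (∏ k, (Φ ((q k : ℝ) / n) - Φ (((q k : ℝ) - 1) / n))) * G (fun k => (q k : ℝ) / n)

open Classical in
lemma gsum_close {ι : Type} {M : ℕ} (Φ : ℝ → ℝ) (e C : ℝ) (s : Finset ι) (Y : ι → Fin M → ℝ)
    (h : Rect Φ e s Y) (hC : Sec C s Y) (n L : ℕ) (hn : 0 < n) (hL : 0 < L) (D : ℝ)
    (G : (Fin M → ℝ) → ℝ) (hG1 : ∀ y, |G y| ≤ 1)
    (hG2 : ∀ (y y' : Fin M → ℝ) (d : ℝ), 0 ≤ d → (∀ k, |y k - y' k| ≤ d) → |G y - G y'| ≤ D * d) (hD : 0 ≤ D) :
    |∑ i ∈ s, G (Y i) - s.card * gsum Φ n L G| ≤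
      (D / n + M * C / L ^ 2 + (2 * n * L) ^ M * (2 ^ M * e)) * s.card := by
  have hn0 : (0 : ℝ) < n := by exact_mod_cast hn
  have hL0 : (0 : ℝ) < L := by exact_mod_cast hL
  obtain ⟨κ, hκ⟩ : ∃ κ : ι → Fin M → ℤ, κ = fun i k => ⌈(n : ℝ) * Y i k⌉ := ⟨_, rfl⟩
  obtain ⟨Q, hQ⟩ : ∃ Q, Q = Fintype.piFinset (fun _ : Fin M => Ioc (-((n : ℤ) * L)) ((n : ℤ) * L)) := ⟨_, rfl⟩
  have hκk : ∀ i k (q : ℤ), κ i k = q ↔ ((q : ℝ) - 1) / n < Y i k ∧ Y i k ≤ (q : ℝ) / n := by
    intro i k q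
    rw [hκ]
    show ⌈(n : ℝ) * Y i k⌉ = q ↔ _
    rw [Int.ceil_eq_iff, div_lt_iff₀ hn0, le_div_iff₀ hn0, mul_comm (n : ℝ)]
  -- split
  have hsplit : ∑ i ∈ s, G (Y i) = ∑ i ∈ s.filter (fun i => κ i ∈ Q), G (Y i) + ∑ i ∈ s.filter (fun i => ¬ κ i ∈ Q), G (Y i) :=
    (sum_filter_add_sum_filter_not s _ _).symm
  have hout : |∑ i ∈ s.filter (fun i => ¬ κ i ∈ Q), G (Y i)| ≤ M * C / L ^ 2 * s.card := by
    refine (abs_sum_le_sum_abs _ _).trans ?_
    refine (sum_le_sum fun i _ => hG1 (Y i)).trans ?_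
    rw [sum_const, nsmul_eq_mul, mul_one]
    have h1 : s.filter (fun i => ¬ κ i ∈ Q) ⊆ univ.biUnion (fun k : Fin M => s.filter (fun i => (L : ℝ) ^ 2 ≤ (Y i k) ^ 2)) := by
      intro i hi
      rw [mem_filter, hQ, Fintype.mem_piFinset] at hi
      obtain ⟨his, h2⟩ := hi
      push Not at h2
      obtain ⟨k, hk⟩ := h2
      rw [mem_biUnion]
      refine ⟨k, mem_univ k, ?_⟩
      rw [mem_filter]
      refine ⟨his, ?_⟩
      rw [mem_Ioc, hκ] at hk
      simp only at hk
      by_cases h3 : -((n : ℤ) * L) < ⌈(n : ℝ) * Y i k⌉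
      · have h4 : ¬ ⌈(n : ℝ) * Y i k⌉ ≤ (n : ℤ) * L := fun h5 => hk ⟨h3, h5⟩
        rw [Int.ceil_le] at h4
        push Not at h4
        push_cast at h4
        have h5 : (L : ℝ) < Y i k := lt_of_mul_lt_mul_left h4 hn0.le
        nlinarith
      · rw [Int.lt_ceil] at h3
        push Not at h3
        push_cast at h3
        have h5 : Y i k ≤ -(L : ℝ) := by
          have : (n : ℝ) * Y i k ≤ n * (-(L : ℝ)) := by linarith
          exact le_of_mul_le_mul_left this hn0
        nlinarith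
    have h2 : ((s.filter (fun i => ¬ κ i ∈ Q)).card : ℝ) ≤ ∑ k : Fin M, ((s.filter (fun i => (L : ℝ) ^ 2 ≤ (Y i k) ^ 2)).card : ℝ) := by
      have := (card_le_card h1).trans card_biUnion_le
      exact_mod_cast this
    refine h2.trans ?_
    have h3 : ∀ k ∈ (univ : Finset (Fin M)), ((s.filter (fun i => (L : ℝ) ^ 2 ≤ (Y i k) ^ 2)).card : ℝ) ≤ C / L ^ 2 * s.card := by
      intro k _
      have h4 : (L : ℝ) ^ 2 * ((s.filter (fun i => (L : ℝ) ^ 2 ≤ (Y i k) ^ 2)).card : ℝ) ≤ C * s.card := by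
        calc (L : ℝ) ^ 2 * ((s.filter (fun i => (L : ℝ) ^ 2 ≤ (Y i k) ^ 2)).card : ℝ) =
              ∑ i ∈ s.filter (fun i => (L : ℝ) ^ 2 ≤ (Y i k) ^ 2), (L : ℝ) ^ 2 := by
                rw [sum_const, nsmul_eq_mul, mul_comm]
          _ ≤ ∑ i ∈ s.filter (fun i => (L : ℝ) ^ 2 ≤ (Y i k) ^ 2), (Y i k) ^ 2 := by
              apply sum_le_sum
              intro i hi
              exact (mem_filter.1 hi).2
          _ ≤ ∑ i ∈ s, (Y i k) ^ 2 := sum_le_sum_of_subset_of_nonneg (filter_subset _ _) (fun i _ _ => by positivity)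
          _ ≤ C * s.card := hC k
      have e1 : C / L ^ 2 * (s.card : ℝ) = C * s.card / L ^ 2 := by ring
      rw [e1, le_div_iff₀ (by positivity)]
      linarith
    refine (sum_le_sum h3).trans ?_
    rw [sum_const, card_univ, Fintype.card_fin, nsmul_eq_mul]
    apply le_of_eq
    ring
  have hin : ∑ i ∈ s.filter (fun i => κ i ∈ Q), G (Y i) = ∑ q ∈ Q, ∑ i ∈ s.filter (fun i => κ i = q), G (Y i) := by
    rw [← sum_fiberwise_of_maps_to (s := s.filter (fun i => κ i ∈ Q)) (t := Q) (g := κ) (fun i hi => (mem_filter.1 hi).2)]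
    apply sum_congr rfl
    intro q hq
    congr 1
    rw [filter_filter]
    apply filter_congr
    intro i _
    constructor
    · exact fun h => h.2
    · intro h
      exact ⟨by rw [h]; exact hq, h⟩
  have hcell : ∀ q ∈ Q, |∑ i ∈ s.filter (fun i => κ i = q), G (Y i) - ((s.filter (fun i => κ i = q)).card : ℝ) * G (fun k => (q k : ℝ) / n)| ≤
      D / n * ((s.filter (fun i => κ i = q)).card : ℝ) := by
    intro q _
    rw [← nsmul_eq_mul, ← sum_const, ← sum_sub_distrib]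
    refine (abs_sum_le_sum_abs _ _).trans ?_
    have h1 : ∀ i ∈ s.filter (fun i => κ i = q), |G (Y i) - G (fun k => (q k : ℝ) / n)| ≤ D / n := by
      intro i hi
      have h2 := (mem_filter.1 hi).2
      have h3 := hG2 (Y i) (fun k => (q k : ℝ) / n) (1 / n) (by positivity) (by
        intro k
        have h4 := (hκk i k (q k)).1 (by rw [h2])
        have e1 : ((q k : ℝ) - 1) / n = (q k : ℝ) / n - 1 / n := by ring
        rw [e1] at h4
        rw [abs_le]
        constructor <;> linarith [h4.1, h4.2])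
      rw [mul_one_div] at h3
      exact h3
    refine (sum_le_sum h1).trans ?_
    rw [sum_const, nsmul_eq_mul, mul_comm]
  have hcount : ∀ q ∈ Q, |((s.filter (fun i => κ i = q)).card : ℝ) - s.card * ∏ k, (Φ ((q k : ℝ) / n) - Φ (((q k : ℝ) - 1) / n))| ≤
      2 ^ M * (e * s.card) := by
    intro q _
    have h1 := cell_close Φ e s Y h (fun k => ((q k : ℝ) - 1) / n) (fun k => (q k : ℝ) / n) (by
      intro k
      gcongr
      linarith)
    have h2 : s.filter (fun i => κ i = q) = s.filter (fun i => ∀ k, ((q k : ℝ) - 1) / n < Y i k ∧ Y i k ≤ (q k : ℝ) / n) := by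
      apply filter_congr
      intro i _
      rw [funext_iff]
      exact forall_congr' fun k => hκk i k (q k)
    rw [h2]
    exact h1
  have hQcard : (Q.card : ℝ) = (2 * n * L) ^ M := by
    rw [hQ, Fintype.card_piFinset]
    simp only [Int.card_Ioc, prod_const, card_univ, Fintype.card_fin]
    have e1 : (((n : ℤ) * L - -((n : ℤ) * L)).toNat : ℝ) = 2 * n * L := by
      have : ((n : ℤ) * L - -((n : ℤ) * L)) = ((2 * n * L : ℕ) : ℤ) := by
        push_cast
        ring
      rw [this, Int.toNat_natCast]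
      push_cast
      ring
    push_cast
    rw [← e1]
  have hsumcard : ∑ q ∈ Q, ((s.filter (fun i => κ i = q)).card : ℝ) ≤ s.card := by
    have h1 : ∑ q ∈ Q, (s.filter (fun i => κ i = q)).card = (s.filter (fun i => κ i ∈ Q)).card := by
      rw [card_eq_sum_card_fiberwise (f := κ) (t := Q) (s := s.filter (fun i => κ i ∈ Q)) (fun i hi => (mem_filter.1 hi).2)]
      apply sum_congr rfl
      intro q hq
      congr 1
      rw [filter_filter]
      apply filter_congr
      intro i _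
      constructor
      · intro h
        exact ⟨by rw [h]; exact hq, h⟩
      · exact fun h => h.2
    have h2 : (s.filter (fun i => κ i ∈ Q)).card ≤ s.card := card_filter_le _ _
    have h3 := h1.le.trans h2
    exact_mod_cast h3
  have hg : (s.card : ℝ) * gsum Φ n L G = ∑ q ∈ Q, s.card * ((∏ k, (Φ ((q k : ℝ) / n) - Φ (((q k : ℝ) - 1) / n))) * G (fun k => (q k : ℝ) / n)) := by
    unfold gsum
    rw [mul_sum, hQ]
  rw [hsplit, hin, hg]
  have hmain : |∑ q ∈ Q, ∑ i ∈ s.filter (fun i => κ i = q), G (Y i) -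
      ∑ q ∈ Q, s.card * ((∏ k, (Φ ((q k : ℝ) / n) - Φ (((q k : ℝ) - 1) / n))) * G (fun k => (q k : ℝ) / n))| ≤
      D / n * s.card + (2 * n * L) ^ M * (2 ^ M * e) * s.card := by
    rw [← sum_sub_distrib]
    refine (abs_sum_le_sum_abs _ _).trans ?_
    have h1 : ∀ q ∈ Q, |∑ i ∈ s.filter (fun i => κ i = q), G (Y i) -
        s.card * ((∏ k, (Φ ((q k : ℝ) / n) - Φ (((q k : ℝ) - 1) / n))) * G (fun k => (q k : ℝ) / n))| ≤
        D / n * ((s.filter (fun i => κ i = q)).card : ℝ) + 2 ^ M * (e * s.card) := by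
      intro q hq
      have h2 := hcell q hq
      have h3 := hcount q hq
      have h4 := hG1 (fun k => (q k : ℝ) / n)
      obtain ⟨A, hA⟩ : ∃ A, A = ∑ i ∈ s.filter (fun i => κ i = q), G (Y i) := ⟨_, rfl⟩
      obtain ⟨N, hN⟩ : ∃ N : ℝ, N = ((s.filter (fun i => κ i = q)).card : ℝ) := ⟨_, rfl⟩
      obtain ⟨g, hg⟩ : ∃ g, g = G (fun k => (q k : ℝ) / n) := ⟨_, rfl⟩
      obtain ⟨P, hP⟩ : ∃ P, P = ∏ k, (Φ ((q k : ℝ) / n) - Φ (((q k : ℝ) - 1) / n)) := ⟨_, rfl⟩
      rw [← hA, ← hN, ← hg] at h2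
      rw [← hN, ← hP] at h3
      rw [← hg] at h4
      rw [← hA, ← hN, ← hg, ← hP]
      have e1 : A - s.card * (P * g) = (A - N * g) + (N - s.card * P) * g := by ring
      rw [e1]
      refine (abs_add_le _ _).trans ?_
      rw [abs_mul]
      have h5 : |N - s.card * P| * |g| ≤ 2 ^ M * (e * s.card) * 1 := by
        apply mul_le_mul h3 h4 (abs_nonneg _)
        exact (abs_nonneg _).trans h3
      linarith
    refine (sum_le_sum h1).trans ?_
    rw [sum_add_distrib, ← mul_sum, sum_const, nsmul_eq_mul, hQcard]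
    have h2 : D / n * ∑ q ∈ Q, ((s.filter (fun i => κ i = q)).card : ℝ) ≤ D / n * s.card := by
      apply mul_le_mul_of_nonneg_left hsumcard
      positivity
    linarith
  have e2 : ∀ A B C' : ℝ, A + B - C' = (A - C') + B := fun A B C' => by ring
  rw [e2]
  refine (abs_add_le _ _).trans ((add_le_add hmain hout).trans (le_of_eq ?_))
  ring

/-- two families with nearly the same joint distribution function have nearly the same means of Lipschitz functions -/
lemma compare (Φ : ℝ → ℝ) (M : ℕ) (C D ε : ℝ) (hC0 : 0 ≤ C) (hD : 0 ≤ D) (hε : 0 < ε) : ∃ e : ℝ, 0 < e ∧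
    ∀ (ι : Type) (s : Finset ι) (Y : ι → Fin M → ℝ) (ι' : Type) (s' : Finset ι') (Y' : ι' → Fin M → ℝ),
      s.Nonempty → s'.Nonempty → Rect Φ e s Y → Rect Φ e s' Y' → Sec C s Y → Sec C s' Y' →
      ∀ G : (Fin M → ℝ) → ℝ, (∀ y, |G y| ≤ 1) →
        (∀ (y y' : Fin M → ℝ) (d : ℝ), 0 ≤ d → (∀ k, |y k - y' k| ≤ d) → |G y - G y'| ≤ D * d) →
        |(∑ i ∈ s, G (Y i)) / s.card - (∑ i ∈ s', G (Y' i)) / s'.card| ≤ ε := by
  obtain ⟨n, hn⟩ := exists_nat_gt (6 * D / ε)
  obtain ⟨L, hL⟩ := exists_nat_gt (max 1 (6 * M * C / ε))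
  have hn0 : (0 : ℝ) < n := lt_of_le_of_lt (by positivity) hn
  have hL1 : (1 : ℝ) < L := (le_max_left _ _).trans_lt hL
  have hL2 : 6 * M * C / ε < L := (le_max_right _ _).trans_lt hL
  have hL0 : (0 : ℝ) < L := by linarith
  have hn' : 0 < n := by exact_mod_cast hn0
  have hL' : 0 < L := by exact_mod_cast hL0
  refine ⟨ε / (6 * ((2 * n * L) ^ M * 2 ^ M)), by positivity, ?_⟩
  intro ι s Y ι' s' Y' hs hs' hR hR' hS hS' G hG1 hG2
  have h1 := gsum_close Φ _ C s Y hR hS n L hn' hL' D G hG1 hG2 hD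
  have h2 := gsum_close Φ _ C s' Y' hR' hS' n L hn' hL' D G hG1 hG2 hD
  have hsc : (0 : ℝ) < s.card := by exact_mod_cast hs.card_pos
  have hsc' : (0 : ℝ) < s'.card := by exact_mod_cast hs'.card_pos
  have hb : D / n + M * C / L ^ 2 + (2 * n * L) ^ M * (2 ^ M * (ε / (6 * ((2 * n * L) ^ M * 2 ^ M)))) ≤ ε / 2 := by
    have e1 : D / n ≤ ε / 6 := by
      rw [div_lt_iff₀ hε] at hn
      rw [div_le_iff₀ hn0]
      linarith
    have e2 : M * C / (L : ℝ) ^ 2 ≤ ε / 6 := by
      rw [div_lt_iff₀ hε] at hL2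
      rw [div_le_iff₀ (by positivity)]
      have h3 : (L : ℝ) ≤ (L : ℝ) ^ 2 := by nlinarith
      have h4 : L * ε ≤ (L : ℝ) ^ 2 * ε := by gcongr
      linarith
    have e3 : (2 * (n : ℝ) * L) ^ M * (2 ^ M * (ε / (6 * ((2 * n * L) ^ M * 2 ^ M)))) = ε / 6 := by
      field_simp
    rw [e3]
    linarith
  have h1' : |(∑ i ∈ s, G (Y i)) / s.card - gsum Φ n L G| ≤ ε / 2 := by
    have e1 : (∑ i ∈ s, G (Y i)) / s.card - gsum Φ n L G = (∑ i ∈ s, G (Y i) - s.card * gsum Φ n L G) / s.card := by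
      field_simp
    rw [e1, abs_div, abs_of_pos hsc, div_le_iff₀ hsc]
    exact h1.trans (by gcongr)
  have h2' : |(∑ i ∈ s', G (Y' i)) / s'.card - gsum Φ n L G| ≤ ε / 2 := by
    have e1 : (∑ i ∈ s', G (Y' i)) / s'.card - gsum Φ n L G = (∑ i ∈ s', G (Y' i) - s'.card * gsum Φ n L G) / s'.card := by
      field_simp
    rw [e1, abs_div, abs_of_pos hsc', div_le_iff₀ hsc']
    exact h2.trans (by gcongr)
  have h3 := abs_sub_le ((∑ i ∈ s, G (Y i)) / s.card) (gsum Φ n L G) ((∑ i ∈ s', G (Y' i)) / s'.card)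
  rw [abs_sub_comm (gsum Φ n L G)] at h3
  linarith

end Pool.Agent.K4H10.DN
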