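import Pool.Agent.K4H16.CG.MD2
import Pool.Agent.K4H16.CG.Joint
import Pool.Agent.K4H10.DN.A1
import Pool.Agent.K4H10.DN.A2

/-!
# The path of the partial sums over a family: fourth moments, the grid
-/

set_option autoImplicit false
set_option linter.unusedSectionVars false

namespace Pool.Agent.K4H10.DN

open Finset Pool.Agent.K4H16.CG

variable {J : Type} [Fintype J] [DecidableEq J] {R : J → Type} [∀ j, Fintype (R j)] [∀ j, Nonempty (R j)]

/-- the fourth moment over a family -/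
lemma fam4 (f : ∀ j, R j → ℝ) (hf : ∀ j b, |f j b| ≤ 1) (h0 : ∀ j, avg (f j) = 0) {ι : Type} (s : Finset ι)
    (ρ : ι → ∀ j, R j) (D : ℕ) (hD : 4 ≤ D) (δ : ℝ) (hδ : 0 ≤ δ) (heq : Equi s ρ D δ)
    (hJ : (Fintype.card J : ℝ) ^ 4 * δ ≤ 1) (V' : ℝ) (hV' : 1 ≤ V') (hV : VV f ≤ 2 * V') :
    ∑ i ∈ s, SS f (ρ i) ^ 4 ≤ 361 * V' ^ 2 * s.card := by
  have h1 := (abs_le.1 (fam_pow s ρ D δ hδ heq f hf 4 hD)).2
  have hV0 : 0 < V' := by linarith
  obtain ⟨w, hw⟩ : ∃ w : ℝ, w = 1 / √V' := ⟨_, rfl⟩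
  have hsq : √V' ^ 2 = V' := Real.sq_sqrt hV0.le
  have hs0 : 0 < √V' := Real.sqrt_pos.2 hV0
  have hs1 : 1 ≤ √V' := by
    rw [Real.one_le_sqrt]
    exact hV'
  have hw0 : 0 < w := by rw [hw]; positivity
  have hw1 : w ≤ 1 := by
    rw [hw, div_le_one hs0]
    exact hs1
  have hw2 : w ^ 2 = 1 / V' := by rw [hw, div_pow, one_pow, hsq]
  have hup : ∀ v : ℝ, |v| = w → EE (fun ω => Real.exp (v * SS f ω)) ≤ Real.exp 2 := by
    intro v hv
    refine (EE_exp_le f hf h0 v (by rw [hv]; exact hw1)).trans (Real.exp_le_exp.2 ?_)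
    have hv2 : v ^ 2 = 1 / V' := by rw [← sq_abs, hv, hw2]
    rw [hv2, hv]
    have h3 : 1 / V' / 2 * (1 + w) * VV f ≤ 1 / V' / 2 * (1 + 1) * (2 * V') := by
      have h4 : 0 ≤ VV f := by
        unfold VV
        exact sum_nonneg fun j _ => avg_sq_nonneg _
      gcongr
    refine h3.trans (le_of_eq ?_)
    field_simp
    ring
  have hexp2 : Real.exp 2 ≤ 7.5 := by
    have h3 := Real.exp_one_lt_d9
    have h4 : Real.exp 2 = Real.exp 1 ^ 2 := by
      rw [← Real.exp_nat_mul]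
      norm_num
    rw [h4]
    have h5 := Real.exp_pos 1
    nlinarith
  have h2 : EE (fun ω => SS f ω ^ 4) ≤ 360 * V' ^ 2 := by
    have h3 : ∀ ω : (∀ j, R j), SS f ω ^ 4 ≤ 24 * V' ^ 2 * (Real.exp (w * SS f ω) + Real.exp ((-w) * SS f ω)) := by
      intro ω
      have h4 := Real.pow_div_factorial_le_exp |w * SS f ω| (abs_nonneg _) 4
      rw [Even.pow_abs (by decide), mul_pow, div_le_iff₀ (by positivity)] at h4
      have h5 : w ^ 4 = 1 / V' ^ 2 := by
        have : w ^ 4 = (w ^ 2) ^ 2 := by ring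
        rw [this, hw2, div_pow, one_pow]
      rw [h5] at h4
      have h6 : ((Nat.factorial 4 : ℕ) : ℝ) = 24 := by norm_num [Nat.factorial]
      rw [h6] at h4
      have h7 : Real.exp |w * SS f ω| ≤ Real.exp (w * SS f ω) + Real.exp ((-w) * SS f ω) := by
        rcases abs_cases (w * SS f ω) with ⟨h, _⟩ | ⟨h, _⟩
        · rw [h]
          have := Real.exp_pos ((-w) * SS f ω)
          linarith
        · rw [h, ← neg_mul]
          have := Real.exp_pos (w * SS f ω)
          linarith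
      have h8 : SS f ω ^ 4 = V' ^ 2 * (1 / V' ^ 2 * SS f ω ^ 4) := by
        field_simp
      rw [h8]
      calc V' ^ 2 * (1 / V' ^ 2 * SS f ω ^ 4) ≤ V' ^ 2 * (Real.exp |w * SS f ω| * 24) := by gcongr
        _ ≤ V' ^ 2 * ((Real.exp (w * SS f ω) + Real.exp ((-w) * SS f ω)) * 24) := by gcongr
        _ = 24 * V' ^ 2 * (Real.exp (w * SS f ω) + Real.exp ((-w) * SS f ω)) := by ring
    refine (EE_le _ _ h3).trans ?_
    rw [EE_mul]
    have h4 : EE (fun ω => Real.exp (w * SS f ω) + Real.exp ((-w) * SS f ω)) =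
        EE (fun ω => Real.exp (w * SS f ω)) + EE (fun ω => Real.exp ((-w) * SS f ω)) := by
      unfold EE
      rw [sum_add_distrib, add_div]
    rw [h4]
    have h5 := hup w (abs_of_pos hw0)
    have h6 := hup (-w) (by rw [abs_neg, abs_of_pos hw0])
    calc 24 * V' ^ 2 * (EE (fun ω => Real.exp (w * SS f ω)) + EE (fun ω => Real.exp ((-w) * SS f ω)))
        ≤ 24 * V' ^ 2 * (7.5 + 7.5) := by
          gcongr
          · exact h5.trans hexp2
          · exact h6.trans hexp2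
      _ = 360 * V' ^ 2 := by ring
  have hs : (0 : ℝ) ≤ s.card := Nat.cast_nonneg _
  have h3 : (s.card : ℝ) * EE (fun ω => SS f ω ^ 4) ≤ s.card * (360 * V' ^ 2) := by gcongr
  have h4 : (Fintype.card J : ℝ) ^ 4 * (δ * s.card) ≤ 1 * s.card := by
    rw [← mul_assoc]
    gcongr
  have h5 : 1 ≤ V' ^ 2 := one_le_pow₀ hV'
  nlinarith

/-- the function restricted to the places in `T` -/
noncomputable def res (f : ∀ j, R j → ℝ) (T : Finset J) (j : J) (b : R j) : ℝ := if j ∈ T then f j b else 0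

omit [∀ j, Nonempty (R j)] in
lemma res_SS (f : ∀ j, R j → ℝ) (T : Finset J) (ω : ∀ j, R j) : SS (res f T) ω = ∑ j ∈ T, f j (ω j) := by
  unfold SS res
  rw [← sum_filter]
  congr 1
  ext j
  simp

lemma res_avg (f : ∀ j, R j → ℝ) (h0 : ∀ j, avg (f j) = 0) (T : Finset J) (j : J) : avg (res f T j) = 0 := by
  by_cases h : j ∈ T
  · have : res f T j = f j := by
      funext b
      unfold res
      rw [if_pos h]
    rw [this, h0]
  · have : res f T j = fun _ => 0 := by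
      funext b
      unfold res
      rw [if_neg h]
    rw [this]
    unfold avg
    simp

omit [Fintype J] [∀ j, Fintype (R j)] [∀ j, Nonempty (R j)] in
lemma res_abs (f : ∀ j, R j → ℝ) (hf : ∀ j b, |f j b| ≤ 1) (T : Finset J) (j : J) (b : R j) : |res f T j b| ≤ 1 := by
  unfold res
  split_ifs
  · exact hf j b
  · simp

/-- the variance of the part over `T` -/
noncomputable def var (f : ∀ j, R j → ℝ) (T : Finset J) : ℝ := ∑ j ∈ T, avg (fun b => f j b ^ 2)

omit [Fintype J] [DecidableEq J] [∀ j, Nonempty (R j)] in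
lemma var_nonneg (f : ∀ j, R j → ℝ) (T : Finset J) : 0 ≤ var f T := sum_nonneg fun _ _ => avg_sq_nonneg _

lemma res_VV (f : ∀ j, R j → ℝ) (T : Finset J) : VV (res f T) = var f T := by
  unfold VV var
  have h1 : ∀ j, avg (fun b => res f T j b ^ 2) = if j ∈ T then avg (fun b => f j b ^ 2) else 0 := by
    intro j
    unfold res
    split_ifs with h
    · rfl
    · unfold avg
      simp
  rw [sum_congr rfl fun j _ => h1 j, ← sum_filter]
  congr 1
  ext j
  simp

lemma res_CV (f : ∀ j, R j → ℝ) (T T' : Finset J) (h : Disjoint T T') : CV (res f T) (res f T') = 0 := by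
  unfold CV
  apply sum_eq_zero
  intro j _
  have h1 : (fun b => res f T j b * res f T' j b) = fun _ => 0 := by
    funext b
    unfold res
    by_cases hj : j ∈ T
    · have : j ∉ T' := fun h' => (disjoint_left.1 h) hj h'
      rw [if_neg this, mul_zero]
    · rw [if_neg hj, zero_mul]
  rw [h1]
  unfold avg
  simp

/-- the places with `y < τ j ≤ z` -/
def seg (τ : J → ℕ) (y z : ℕ) : Finset J := univ.filter (fun j => y < τ j ∧ τ j ≤ z)

/-- the places with `τ j ≤ y` -/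
def upto (τ : J → ℕ) (y : ℕ) : Finset J := univ.filter (fun j => τ j ≤ y)

/-- the clock -/
noncomputable def Cv (f : ∀ j, R j → ℝ) (τ : J → ℕ) (y : ℕ) : ℝ := var f (upto τ y)

/-- the partial sum -/
noncomputable def Sv (f : ∀ j, R j → ℝ) (τ : J → ℕ) (y : ℕ) (ω : ∀ j, R j) : ℝ := ∑ j ∈ upto τ y, f j (ω j)

omit [DecidableEq J] in
lemma upto_mono (τ : J → ℕ) {y z : ℕ} (h : y ≤ z) : upto τ y ⊆ upto τ z := by
  intro j hj
  unfold upto at *
  rw [mem_filter] at *
  exact ⟨hj.1, hj.2.trans h⟩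

lemma upto_sdiff (τ : J → ℕ) (y z : ℕ) : upto τ z \ upto τ y = seg τ y z := by
  ext j
  unfold upto seg
  rw [mem_sdiff, mem_filter, mem_filter, mem_filter]
  constructor
  · rintro ⟨⟨_, h1⟩, h2⟩
    refine ⟨mem_univ j, ?_, h1⟩
    by_contra h3
    exact h2 ⟨mem_univ j, by omega⟩
  · rintro ⟨_, h1, h2⟩
    refine ⟨⟨mem_univ j, h2⟩, fun h3 => ?_⟩
    omega

lemma Sv_sub (f : ∀ j, R j → ℝ) (τ : J → ℕ) {y z : ℕ} (h : y ≤ z) (ω : ∀ j, R j) :
    Sv f τ z ω - Sv f τ y ω = ∑ j ∈ seg τ y z, f j (ω j) := by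
  unfold Sv
  rw [← sum_sdiff (upto_mono τ h), upto_sdiff]
  ring

lemma Cv_sub (f : ∀ j, R j → ℝ) (τ : J → ℕ) {y z : ℕ} (h : y ≤ z) : Cv f τ z - Cv f τ y = var f (seg τ y z) := by
  unfold Cv var
  rw [← sum_sdiff (upto_mono τ h), upto_sdiff]
  ring

lemma Cv_mono (f : ∀ j, R j → ℝ) (τ : J → ℕ) {y z : ℕ} (h : y ≤ z) : Cv f τ y ≤ Cv f τ z := by
  have h1 := Cv_sub f τ h
  have h2 := var_nonneg f (seg τ y z)
  linarith

lemma Cv_jump (f : ∀ j, R j → ℝ) (hf : ∀ j b, |f j b| ≤ 1) (τ : J → ℕ) (hτ : Function.Injective τ) (y : ℕ) :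
    Cv f τ (y + 1) ≤ Cv f τ y + 1 := by
  have h1 := Cv_sub f τ (Nat.le_succ y)
  have h2 : var f (seg τ y (y + 1)) ≤ 1 := by
    unfold var
    have h3 : ∑ j ∈ seg τ y (y + 1), avg (fun b => f j b ^ 2) ≤ ∑ j ∈ seg τ y (y + 1), (1 : ℝ) :=
      sum_le_sum fun j _ => avg_sq_le_one (f j) (hf j)
    refine h3.trans ?_
    rw [sum_const, nsmul_eq_mul, mul_one]
    have h4 : (seg τ y (y + 1)).card ≤ 1 := by
      rw [card_le_one]
      intro a ha b hb
      unfold seg at ha hb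
      rw [mem_filter] at ha hb
      apply hτ
      omega
    exact_mod_cast h4
  have e : y.succ = y + 1 := rfl
  rw [e] at h1
  linarith

end Pool.Agent.K4H10.DN
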