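import Pool.Agent.K4H16.CG.LTdefs

/-!
# The path of the normalised errors in the clock of the variance, the random walk, Lipschitz functionals
-/

set_option autoImplicit false

namespace Pool.Agent.K4H10.DN

open Finset Pool.Agent.K4H16.CG

/-- The last time `y ≤ x` at which the clock `C` shows at most `v`. -/
noncomputable def clk (C : ℕ → ℝ) (x : ℕ) (v : ℝ) : ℕ := Nat.findGreatest (fun y => C y ≤ v) x

/-- `F` is a functional of the path `w` on `[0, 1]`, bounded by one and Lipschitz with the constant one for the uniform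
distance. -/
def BL (F : (ℝ → ℝ) → ℝ) : Prop :=
  (∀ w, |F w| ≤ 1) ∧ ∀ (w w' : ℝ → ℝ) (d : ℝ), (∀ u, 0 ≤ u → u ≤ 1 → |w u - w' u| ≤ d) → |F w - F w'| ≤ d

/-- The path of the simple random walk with the `N` steps `± 1 / √N`: `e j` is the direction of the step `j`. -/
noncomputable def walk (N : ℕ) (e : Fin N → Bool) (u : ℝ) : ℝ :=
  (∑ j : Fin N, if (j : ℕ) < ⌊u * N⌋₊ then (if e j then (1 : ℝ) else -1) else 0) / √N

/-- The path up to `x` of the normalised error `(total - mean) / √V(x)`, `V = cov W φ φ`, of the member at `v`, in the clock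
of the variance: at the time `u` of the interval `[0, 1]` the error is taken at the last `y ≤ x` with `V(y) ≤ u V(x)`. -/
noncomputable def path {n r : ℕ} (W : Fin r → WeierstrassCurve (MvPolynomial (Fin n) ℤ)) (φ : ℕ → (Fin r → Option ℤ) → ℝ)
    (x : ℕ) (v : Fin n → ℤ) (u : ℝ) : ℝ :=
  (total W φ (clk (cov W φ φ) x (u * cov W φ φ x)) v - mean W φ (clk (cov W φ φ) x (u * cov W φ φ x))) / √(cov W φ φ x)

end Pool.Agent.K4H10.DN
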