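import Pool.Agent.K4H10.DN.A3
import Pool.Agent.K4H10.DN.Defs

/-!
# The grid of the clock, the oscillation in the cells
-/

set_option autoImplicit false
set_option linter.unusedSectionVars false

namespace Pool.Agent.K4H10.DN

open Finset Pool.Agent.K4H16.CG

lemma clk_spec (C : ℕ → ℝ) (x : ℕ) (v : ℝ) (h0 : C 0 ≤ v) : C (clk C x v) ≤ v :=
  Nat.findGreatest_spec (P := fun y => C y ≤ v) (Nat.zero_le x) h0

lemma clk_le (C : ℕ → ℝ) (x : ℕ) (v : ℝ) : clk C x v ≤ x := Nat.findGreatest_le x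

lemma clk_max (C : ℕ → ℝ) (x : ℕ) (v : ℝ) (y : ℕ) (hy : y ≤ x) (h : C y ≤ v) : y ≤ clk C x v :=
  Nat.le_findGreatest hy h

lemma clk_mono (C : ℕ → ℝ) (x : ℕ) {v v' : ℝ} (h : v ≤ v') : clk C x v ≤ clk C x v' :=
  Nat.findGreatest_mono (fun _ hn => le_trans hn h) le_rfl

lemma clk_lower (C : ℕ → ℝ) (hj : ∀ y, C (y + 1) ≤ C y + 1) (x : ℕ) (v : ℝ) (hv : v ≤ C x) : v - 1 ≤ C (clk C x v) := by
  rcases Nat.lt_or_ge (clk C x v) x with h | h
  · have h1 : ¬ C (clk C x v + 1) ≤ v :=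
      Nat.findGreatest_is_greatest (P := fun y => C y ≤ v) (n := x) (Nat.lt_succ_self _) h
    have h2 := hj (clk C x v)
    push Not at h1
    linarith
  · have h1 : clk C x v = x := le_antisymm (clk_le C x v) h
    rw [h1]
    linarith

variable {J : Type} [Fintype J] [DecidableEq J] {R : J → Type} [∀ j, Fintype (R j)] [∀ j, Nonempty (R j)]

lemma Cv_zero (f : ∀ j, R j → ℝ) (τ : J → ℕ) (hτ1 : ∀ j, 1 ≤ τ j) : Cv f τ 0 = 0 := by
  unfold Cv var upto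
  apply sum_eq_zero
  intro j hj
  rw [mem_filter] at hj
  have := hτ1 j
  omega

lemma Cv_top (f : ∀ j, R j → ℝ) (τ : J → ℕ) (x : ℕ) (hτx : ∀ j, τ j ≤ x) : Cv f τ x = VV f := by
  unfold Cv var upto VV
  rw [filter_true_of_mem fun j _ => hτx j]

/-- the increments over the grid have variance at most twice the length -/
lemma grid_var (f : ∀ j, R j → ℝ) (hf : ∀ j b, |f j b| ≤ 1) (τ : J → ℕ) (hτ : Function.Injective τ) (hτ1 : ∀ j, 1 ≤ τ j)
    (x : ℕ) (a b : ℕ) (hab : a < b) :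
    var f (seg τ (clk (Cv f τ) x a) (clk (Cv f τ) x b)) ≤ 2 * ((b : ℝ) - a) := by
  have hm : clk (Cv f τ) x a ≤ clk (Cv f τ) x b := clk_mono _ _ (by exact_mod_cast hab.le)
  rw [← Cv_sub f τ hm]
  have h0 := Cv_zero f τ hτ1
  have h1 := clk_spec (Cv f τ) x b (by rw [h0]; positivity)
  have hab' : (a : ℝ) + 1 ≤ b := by exact_mod_cast hab
  rcases le_or_gt (a : ℝ) (Cv f τ x) with h | h
  · have h2 := clk_lower (Cv f τ) (Cv_jump f hf τ hτ) x a h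
    linarith
  · have h2 : clk (Cv f τ) x a = x := le_antisymm (clk_le _ _ _) (clk_max _ _ _ _ le_rfl h.le)
    have h3 : clk (Cv f τ) x b = x := le_antisymm (clk_le _ _ _) (h2.symm.le.trans hm)
    rw [h3, h2, sub_self]
    linarith

lemma grid4 (f : ∀ j, R j → ℝ) (hf : ∀ j b, |f j b| ≤ 1) (h0 : ∀ j, avg (f j) = 0) (τ : J → ℕ) (hτ : Function.Injective τ)
    (hτ1 : ∀ j, 1 ≤ τ j) (x : ℕ) {ι : Type} (s : Finset ι)
    (ρ : ι → ∀ j, R j) (D : ℕ) (hD : 4 ≤ D) (δ : ℝ) (hδ : 0 ≤ δ) (heq : Equi s ρ D δ)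
    (hJ : (Fintype.card J : ℝ) ^ 4 * δ ≤ 1) (a b : ℕ) (hab : a < b) :
    ∑ i ∈ s, (Sv f τ (clk (Cv f τ) x b) (ρ i) - Sv f τ (clk (Cv f τ) x a) (ρ i)) ^ 4 ≤ 361 * ((b : ℝ) - a) ^ 2 * s.card := by
  have hm : clk (Cv f τ) x a ≤ clk (Cv f τ) x b := clk_mono _ _ (by exact_mod_cast hab.le)
  have h1 := fam4 (res f (seg τ (clk (Cv f τ) x a) (clk (Cv f τ) x b))) (res_abs f hf _) (res_avg f h0 _) s ρ D hD δ hδ heq hJ
    ((b : ℝ) - a) (by
      have hab' : (a : ℝ) + 1 ≤ b := by exact_mod_cast hab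
      linarith) (by
      rw [res_VV]
      exact grid_var f hf τ hτ hτ1 x a b hab)
  refine le_trans (le_of_eq ?_) h1
  refine sum_congr rfl fun i _ => ?_
  rw [Sv_sub f τ hm, res_SS]

section marks

variable (θ : ∀ j, R j → ℝ)

/-- the centred mark -/
noncomputable def ctr (j : J) (b : R j) : ℝ := θ j b - avg (θ j)

lemma mark_avg_nonneg (hθ : ∀ j b, θ j b = 0 ∨ θ j b = 1) (j : J) : 0 ≤ avg (θ j) := by
  unfold avg
  apply div_nonneg _ (Nat.cast_nonneg _)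
  apply sum_nonneg
  intro b _
  rcases hθ j b with h | h <;> rw [h] <;> norm_num

lemma mark_avg_le_one (hθ : ∀ j b, θ j b = 0 ∨ θ j b = 1) (j : J) : avg (θ j) ≤ 1 := by
  refine (le_abs_self _).trans (avg_abs_le_one _ fun b => ?_)
  rcases hθ j b with h | h <;> rw [h] <;> norm_num

lemma ctr_abs (hθ : ∀ j b, θ j b = 0 ∨ θ j b = 1) (j : J) (b : R j) : |ctr θ j b| ≤ 1 := by
  unfold ctr
  have h1 := mark_avg_nonneg θ hθ j
  have h2 := mark_avg_le_one θ hθ j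
  rw [abs_le]
  rcases hθ j b with h | h <;> rw [h] <;> constructor <;> linarith

lemma ctr_avg (j : J) : avg (ctr θ j) = 0 := by
  have hp0 : (Fintype.card (R j) : ℝ) ≠ 0 := by exact_mod_cast Fintype.card_ne_zero
  have h1 : avg (ctr θ j) = avg (θ j) - avg (θ j) := by
    unfold avg ctr
    rw [sum_sub_distrib, sum_const, card_univ, nsmul_eq_mul]
    unfold avg
    field_simp
  rw [h1, sub_self]

lemma ctr_sq (hθ : ∀ j b, θ j b = 0 ∨ θ j b = 1) (j : J) : avg (fun b => ctr θ j b ^ 2) = avg (θ j) * (1 - avg (θ j)) := by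
  have hp0 : (Fintype.card (R j) : ℝ) ≠ 0 := by exact_mod_cast Fintype.card_ne_zero
  obtain ⟨p, hp⟩ : ∃ p, p = avg (θ j) := ⟨_, rfl⟩
  have h1 : ∀ b, ctr θ j b ^ 2 = (1 - 2 * p) * θ j b + p ^ 2 := by
    intro b
    unfold ctr
    rw [← hp]
    rcases hθ j b with h | h <;> rw [h] <;> ring
  have h2 : ∑ b, θ j b = p * Fintype.card (R j) := by
    rw [hp]
    unfold avg
    field_simp
  rw [← hp]
  unfold avg
  rw [sum_congr rfl fun b _ => h1 b, sum_add_distrib, ← mul_sum, h2, sum_const, card_univ, nsmul_eq_mul]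
  field_simp
  ring

end marks

lemma part_sup {A A' : Finset J} (h : A' ⊆ A) (t p : J → ℝ) (ht : ∀ j ∈ A, 0 ≤ t j) (hp : ∀ j ∈ A, 0 ≤ p j) :
    |∑ j ∈ A', (t j - p j)| ≤ |∑ j ∈ A, (t j - p j)| + ∑ j ∈ A, p j := by
  have h1 : ∑ j ∈ A', t j ≤ ∑ j ∈ A, t j := sum_le_sum_of_subset_of_nonneg h fun j hj _ => ht j hj
  have h2 : ∑ j ∈ A', p j ≤ ∑ j ∈ A, p j := sum_le_sum_of_subset_of_nonneg h fun j hj _ => hp j hj
  have h3 : 0 ≤ ∑ j ∈ A', p j := sum_nonneg fun j hj => hp j (h hj)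
  have h4 : 0 ≤ ∑ j ∈ A', t j := sum_nonneg fun j hj => ht j (h hj)
  have h5 := le_abs_self (∑ j ∈ A, (t j - p j))
  have h6 := abs_nonneg (∑ j ∈ A, (t j - p j))
  rw [sum_sub_distrib] at h5 h6 ⊢
  rw [abs_le]
  rw [sum_sub_distrib]
  constructor <;> linarith

open Classical in
lemma cell_sup (θ : ∀ j, R j → ℝ) (hθ : ∀ j b, θ j b = 0 ∨ θ j b = 1) (T T' : Finset J) (hT : T' ⊆ T) (ω : ∀ j, R j) :
    |∑ j ∈ T', ctr θ j (ω j)| ≤ |∑ j ∈ T.filter (fun j => avg (θ j) ≤ 1 / 2), ctr θ j (ω j)| +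
      |∑ j ∈ T.filter (fun j => ¬ avg (θ j) ≤ 1 / 2), ctr θ j (ω j)| + 2 * var (ctr θ) T := by
  have hsub1 : T'.filter (fun j => avg (θ j) ≤ 1 / 2) ⊆ T.filter (fun j => avg (θ j) ≤ 1 / 2) := filter_subset_filter _ hT
  have hsub2 : T'.filter (fun j => ¬ avg (θ j) ≤ 1 / 2) ⊆ T.filter (fun j => ¬ avg (θ j) ≤ 1 / 2) := filter_subset_filter _ hT
  have hθ0 : ∀ j b, 0 ≤ θ j b := by
    intro j b
    rcases hθ j b with h | h <;> rw [h] <;> norm_num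
  have hθ1 : ∀ j b, θ j b ≤ 1 := by
    intro j b
    rcases hθ j b with h | h <;> rw [h] <;> norm_num
  have h1 := part_sup hsub1 (fun j => θ j (ω j)) (fun j => avg (θ j)) (fun j _ => hθ0 j _) (fun j _ => mark_avg_nonneg θ hθ j)
  have h2 := part_sup hsub2 (fun j => 1 - θ j (ω j)) (fun j => 1 - avg (θ j)) (fun j _ => by linarith [hθ1 j (ω j)])
    (fun j _ => by linarith [mark_avg_le_one θ hθ j])
  have e1 : ∀ T'' : Finset J, ∑ j ∈ T'', (1 - θ j (ω j) - (1 - avg (θ j))) = -∑ j ∈ T'', ctr θ j (ω j) := by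
    intro T''
    rw [← sum_neg_distrib]
    refine sum_congr rfl fun j _ => ?_
    unfold ctr
    ring
  rw [e1, e1, abs_neg, abs_neg] at h2
  have e2 : ∑ j ∈ T', ctr θ j (ω j) = ∑ j ∈ T'.filter (fun j => avg (θ j) ≤ 1 / 2), ctr θ j (ω j) +
      ∑ j ∈ T'.filter (fun j => ¬ avg (θ j) ≤ 1 / 2), ctr θ j (ω j) := (sum_filter_add_sum_filter_not _ _ _).symm
  have e3 : var (ctr θ) T = ∑ j ∈ T.filter (fun j => avg (θ j) ≤ 1 / 2), avg (θ j) * (1 - avg (θ j)) +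
      ∑ j ∈ T.filter (fun j => ¬ avg (θ j) ≤ 1 / 2), avg (θ j) * (1 - avg (θ j)) := by
    unfold var
    rw [sum_filter_add_sum_filter_not]
    exact sum_congr rfl fun j _ => ctr_sq θ hθ j
  have h3 : ∑ j ∈ T.filter (fun j => avg (θ j) ≤ 1 / 2), avg (θ j) ≤
      2 * ∑ j ∈ T.filter (fun j => avg (θ j) ≤ 1 / 2), avg (θ j) * (1 - avg (θ j)) := by
    rw [mul_sum]
    apply sum_le_sum
    intro j hj
    have h4 := (mem_filter.1 hj).2
    have h5 := mark_avg_nonneg θ hθ j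
    nlinarith
  have h4 : ∑ j ∈ T.filter (fun j => ¬ avg (θ j) ≤ 1 / 2), (1 - avg (θ j)) ≤
      2 * ∑ j ∈ T.filter (fun j => ¬ avg (θ j) ≤ 1 / 2), avg (θ j) * (1 - avg (θ j)) := by
    rw [mul_sum]
    apply sum_le_sum
    intro j hj
    have h4 := (mem_filter.1 hj).2
    push Not at h4
    have h5 := mark_avg_le_one θ hθ j
    nlinarith
  rw [e2, e3]
  refine (abs_add_le _ _).trans ?_
  have h1' : |∑ j ∈ T'.filter (fun j => avg (θ j) ≤ 1 / 2), ctr θ j (ω j)| ≤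
      |∑ j ∈ T.filter (fun j => avg (θ j) ≤ 1 / 2), ctr θ j (ω j)| + ∑ j ∈ T.filter (fun j => avg (θ j) ≤ 1 / 2), avg (θ j) := h1
  linarith

open Classical in
/-- the oscillation in the cells of the grid -/
lemma cell_bad (θ : ∀ j, R j → ℝ) (hθ : ∀ j b, θ j b = 0 ∨ θ j b = 1) (τ : J → ℕ) (hτ : Function.Injective τ)
    (hτ1 : ∀ j, 1 ≤ τ j) (x : ℕ) {ι : Type} (s : Finset ι)
    (ρ : ι → ∀ j, R j) (D : ℕ) (hD : 4 ≤ D) (δ : ℝ) (hδ : 0 ≤ δ) (heq : Equi s ρ D δ)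
    (hJ : (Fintype.card J : ℝ) ^ 4 * δ ≤ 1) (n : ℕ) (lam : ℝ) (hl : 0 < lam) :
    ((s.filter (fun i => ∃ a, a ≤ n ∧ ∃ y, clk (Cv (ctr θ) τ) x (a : ℕ) ≤ y ∧ y ≤ clk (Cv (ctr θ) τ) x ((a + 1 : ℕ) : ℝ) ∧
      2 * lam + 4 < |Sv (ctr θ) τ y (ρ i) - Sv (ctr θ) τ (clk (Cv (ctr θ) τ) x (a : ℕ)) (ρ i)|)).card : ℝ) ≤
      (n + 1) * (722 / lam ^ 4) * s.card := by
  obtain ⟨f, hf⟩ : ∃ f, f = ctr θ := ⟨_, rfl⟩
  have hfabs : ∀ j b, |f j b| ≤ 1 := by rw [hf]; exact ctr_abs θ hθ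
  have hfavg : ∀ j, avg (f j) = 0 := by rw [hf]; exact ctr_avg θ
  rw [← hf]
  obtain ⟨g, hg⟩ : ∃ g : ℕ → ℕ, g = fun a => clk (Cv f τ) x (a : ℕ) := ⟨_, rfl⟩
  obtain ⟨T, hT⟩ : ∃ T : ℕ → Finset J, T = fun a => seg τ (g a) (g (a + 1)) := ⟨_, rfl⟩
  obtain ⟨A, hA⟩ : ∃ A : ℕ → Finset J, A = fun a => (T a).filter (fun j => avg (θ j) ≤ 1 / 2) := ⟨_, rfl⟩
  obtain ⟨B, hB⟩ : ∃ B : ℕ → Finset J, B = fun a => (T a).filter (fun j => ¬ avg (θ j) ≤ 1 / 2) := ⟨_, rfl⟩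
  have hvT : ∀ a, var f (T a) ≤ 2 := by
    intro a
    have h1 := grid_var f hfabs τ hτ hτ1 x a (a + 1) (Nat.lt_succ_self a)
    rw [hT, hg]
    refine h1.trans (le_of_eq ?_)
    push_cast
    ring
  have hvsub : ∀ a (S : Finset J), S ⊆ T a → var f S ≤ 2 * 1 := by
    intro a S hS
    have h1 : var f S ≤ var f (T a) := sum_le_sum_of_subset_of_nonneg hS fun _ _ _ => avg_sq_nonneg _
    have := hvT a
    linarith
  have hbad : ∀ a (S : Finset J), S ⊆ T a → ((s.filter (fun i => lam < |SS (res f S) (ρ i)|)).card : ℝ) ≤ 361 / lam ^ 4 * s.card := by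
    intro a S hS
    have h1 := fam4 (res f S) (res_abs f hfabs _) (res_avg f hfavg _) s ρ D hD δ hδ heq hJ 1 le_rfl (by
      rw [res_VV]
      exact hvsub a S hS)
    have h2 := markov4 s (fun i => SS (res f S) (ρ i)) lam _ hl h1
    refine h2.trans (le_of_eq ?_)
    ring
  have hsub : s.filter (fun i => ∃ a, a ≤ n ∧ ∃ y, clk (Cv f τ) x (a : ℕ) ≤ y ∧ y ≤ clk (Cv f τ) x ((a + 1 : ℕ) : ℝ) ∧
      2 * lam + 4 < |Sv f τ y (ρ i) - Sv f τ (clk (Cv f τ) x (a : ℕ)) (ρ i)|) ⊆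
      (range (n + 1)).biUnion (fun a => s.filter (fun i => lam < |SS (res f (A a)) (ρ i)|) ∪ s.filter (fun i => lam < |SS (res f (B a)) (ρ i)|)) := by
    intro i hi
    rw [mem_filter] at hi
    obtain ⟨his, a, han, y, hy1, hy2, hy3⟩ := hi
    rw [mem_biUnion]
    refine ⟨a, mem_range.2 (by omega), ?_⟩
    rw [mem_union, mem_filter, mem_filter]
    by_contra hcon
    push Not at hcon
    have h1 := hcon.1 his
    have h2 := hcon.2 his
    rw [Sv_sub f τ hy1] at hy3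
    have h3 := cell_sup θ hθ (T a) (seg τ (clk (Cv f τ) x (a : ℕ)) y) (by
      rw [hT, hg]
      intro j hj
      unfold seg at *
      rw [mem_filter] at *
      exact ⟨hj.1, hj.2.1, hj.2.2.trans hy2⟩) (ρ i)
    rw [← hf] at h3
    rw [res_SS] at h1 h2
    rw [hA] at h1
    rw [hB] at h2
    have h4 := hvT a
    linarith
  have hcard := (card_le_card hsub).trans card_biUnion_le
  have hcard' : ((s.filter (fun i => ∃ a, a ≤ n ∧ ∃ y, clk (Cv f τ) x (a : ℕ) ≤ y ∧ y ≤ clk (Cv f τ) x ((a + 1 : ℕ) : ℝ) ∧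
      2 * lam + 4 < |Sv f τ y (ρ i) - Sv f τ (clk (Cv f τ) x (a : ℕ)) (ρ i)|)).card : ℝ) ≤
      ∑ a ∈ range (n + 1), ((s.filter (fun i => lam < |SS (res f (A a)) (ρ i)|) ∪ s.filter (fun i => lam < |SS (res f (B a)) (ρ i)|)).card : ℝ) := by
    exact_mod_cast hcard
  refine hcard'.trans ?_
  have hone : ∀ a ∈ range (n + 1), ((s.filter (fun i => lam < |SS (res f (A a)) (ρ i)|) ∪ s.filter (fun i => lam < |SS (res f (B a)) (ρ i)|)).card : ℝ) ≤
      722 / lam ^ 4 * s.card := by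
    intro a _
    have h1 := card_union_le (s.filter (fun i => lam < |SS (res f (A a)) (ρ i)|)) (s.filter (fun i => lam < |SS (res f (B a)) (ρ i)|))
    have h2 := hbad a (A a) (by rw [hA]; exact filter_subset _ _)
    have h3 := hbad a (B a) (by rw [hB]; exact filter_subset _ _)
    have h4 : ((s.filter (fun i => lam < |SS (res f (A a)) (ρ i)|) ∪ s.filter (fun i => lam < |SS (res f (B a)) (ρ i)|)).card : ℝ) ≤
      ((s.filter (fun i => lam < |SS (res f (A a)) (ρ i)|)).card : ℝ) + ((s.filter (fun i => lam < |SS (res f (B a)) (ρ i)|)).card : ℝ) := by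
      exact_mod_cast h1
    have h5 : (722 : ℝ) / lam ^ 4 * s.card = 361 / lam ^ 4 * s.card + 361 / lam ^ 4 * s.card := by ring
    linarith
  refine (sum_le_sum hone).trans ?_
  rw [sum_const, card_range, nsmul_eq_mul]
  push_cast
  apply le_of_eq
  ring

end Pool.Agent.K4H10.DN
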