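import Pool.Agent.K4H10.DN.A4

/-!
# The path is close to the step path of the increments over the blocks
-/

set_option autoImplicit false
set_option linter.unusedSectionVars false

namespace Pool.Agent.K4H10.DN

open Finset Pool.Agent.K4H16.CG

/-- The step path with the increments `y k / √M` at the times `(k + 1) / M`. -/
noncomputable def stepPath (M : ℕ) (y : Fin M → ℝ) (u : ℝ) : ℝ := (∑ k : Fin M, if (k : ℕ) < ⌊u * M⌋₊ then y k else 0) / √M

lemma stepPath_close (M : ℕ) (y y' : Fin M → ℝ) (d : ℝ) (hd : 0 ≤ d) (h : ∀ k, |y k - y' k| ≤ d) (u : ℝ) :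
    |stepPath M y u - stepPath M y' u| ≤ M * d := by
  rcases Nat.eq_zero_or_pos M with hM | hM
  · subst hM
    unfold stepPath
    simp
  unfold stepPath
  rw [← sub_div, ← sum_sub_distrib, abs_div]
  have hM1 : (1 : ℝ) ≤ M := by exact_mod_cast hM
  have hs : 1 ≤ √(M : ℝ) := by
    rw [Real.one_le_sqrt]
    exact hM1
  rw [abs_of_pos (by linarith : 0 < √(M : ℝ)), div_le_iff₀ (by linarith)]
  have h1 : |∑ k : Fin M, ((if (k : ℕ) < ⌊u * M⌋₊ then y k else 0) - if (k : ℕ) < ⌊u * M⌋₊ then y' k else 0)| ≤ M * d := by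
    refine (abs_sum_le_sum_abs _ _).trans ?_
    have h2 : ∀ k ∈ (univ : Finset (Fin M)), |(if (k : ℕ) < ⌊u * M⌋₊ then y k else 0) - if (k : ℕ) < ⌊u * M⌋₊ then y' k else 0| ≤ d := by
      intro k _
      split_ifs
      · exact h k
      · simpa using hd
    refine (sum_le_sum h2).trans ?_
    rw [sum_const, card_univ, Fintype.card_fin, nsmul_eq_mul]
  have h3 : (M : ℝ) * d * 1 ≤ M * d * √(M : ℝ) := by gcongr
  linarith

lemma sqrt_diff (a b : ℝ) (ha : 0 ≤ a) (hb : 0 ≤ b) : |√a - √b| ≤ √|a - b| := by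
  apply Real.le_sqrt_of_sq_le
  rw [sq_abs]
  have h1 := Real.sqrt_nonneg a
  have h2 := Real.sqrt_nonneg b
  have h3 := Real.sq_sqrt ha
  have h4 := Real.sq_sqrt hb
  rcases le_total (√a) (√b) with h | h
  · have h5 := neg_abs_le (a - b)
    nlinarith
  · have h5 := le_abs_self (a - b)
    nlinarith

variable {J : Type} [Fintype J] [DecidableEq J] {R : J → Type} [∀ j, Fintype (R j)] [∀ j, Nonempty (R j)]

lemma zero_var (f : ∀ j, R j → ℝ) (T : Finset J) (h : var f T ≤ 0) (ω : ∀ j, R j) : ∑ j ∈ T, f j (ω j) = 0 := by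
  apply sum_eq_zero
  intro j hj
  have h1 : var f T = 0 := le_antisymm h (var_nonneg f T)
  unfold var at h1
  rw [sum_eq_zero_iff_of_nonneg fun j _ => avg_sq_nonneg _] at h1
  have h2 := h1 j hj
  unfold avg at h2
  rw [div_eq_zero_iff] at h2
  rcases h2 with h3 | h3
  · rw [sum_eq_zero_iff_of_nonneg fun b _ => by positivity] at h3
    exact pow_eq_zero_iff (two_ne_zero) |>.1 (h3 (ω j) (mem_univ _))
  · exact absurd h3 (by exact_mod_cast Fintype.card_ne_zero)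

/-- the normalised path -/
noncomputable def pth (f : ∀ j, R j → ℝ) (τ : J → ℕ) (x : ℕ) (ω : ∀ j, R j) (u : ℝ) : ℝ :=
  Sv f τ (clk (Cv f τ) x (u * Cv f τ x)) ω / √(Cv f τ x)

/-- the block boundaries -/
noncomputable def bd (f : ∀ j, R j → ℝ) (τ : J → ℕ) (x B k : ℕ) : ℕ := clk (Cv f τ) x ((k * B : ℕ) : ℝ)

/-- the normalised increments -/
noncomputable def inc (f : ∀ j, R j → ℝ) (τ : J → ℕ) (x B : ℕ) (ω : ∀ j, R j) (k : ℕ) : ℝ :=
  (Sv f τ (bd f τ x B (k + 1)) ω - Sv f τ (bd f τ x B k) ω) / √(var f (seg τ (bd f τ x B k) (bd f τ x B (k + 1))))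

lemma bd_mono (f : ∀ j, R j → ℝ) (τ : J → ℕ) (x B : ℕ) {k l : ℕ} (h : k ≤ l) : bd f τ x B k ≤ bd f τ x B l := by
  unfold bd
  apply clk_mono
  exact_mod_cast Nat.mul_le_mul_right B h

/-- the variance of a block -/
lemma block_var (f : ∀ j, R j → ℝ) (hf : ∀ j b, |f j b| ≤ 1) (τ : J → ℕ) (hτ : Function.Injective τ) (hτ1 : ∀ j, 1 ≤ τ j)
    (x B k : ℕ) (hk : ((k + 1) * B : ℕ) ≤ Cv f τ x) :
    (B : ℝ) - 1 ≤ var f (seg τ (bd f τ x B k) (bd f τ x B (k + 1))) ∧
      var f (seg τ (bd f τ x B k) (bd f τ x B (k + 1))) ≤ B + 1 := by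
  rw [← Cv_sub f τ (bd_mono f τ x B (Nat.le_succ k))]
  have h0 := Cv_zero f τ hτ1
  have hkB : ((k * B : ℕ) : ℝ) ≤ Cv f τ x := by
    have : ((k * B : ℕ) : ℝ) ≤ (((k + 1) * B : ℕ) : ℝ) := by
      exact_mod_cast Nat.mul_le_mul_right B (Nat.le_succ k)
    linarith
  have h1 := clk_spec (Cv f τ) x ((k * B : ℕ) : ℝ) (by rw [h0]; positivity)
  have h2 := clk_spec (Cv f τ) x (((k + 1) * B : ℕ) : ℝ) (by rw [h0]; positivity)
  have h3 := clk_lower (Cv f τ) (Cv_jump f hf τ hτ) x ((k * B : ℕ) : ℝ) hkB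
  have h4 := clk_lower (Cv f τ) (Cv_jump f hf τ hτ) x (((k + 1) * B : ℕ) : ℝ) hk
  unfold bd
  push_cast at h1 h2 h3 h4 ⊢
  constructor <;> linarith

/-- the deterministic comparison of the path with the step path -/
lemma path_step (f : ∀ j, R j → ℝ) (hf : ∀ j b, |f j b| ≤ 1) (τ : J → ℕ) (hτ : Function.Injective τ) (hτ1 : ∀ j, 1 ≤ τ j)
    (x M B : ℕ) (hM : 0 < M) (hB : B = ⌊Cv f τ x / M⌋₊) (hB2 : 2 ≤ B) (L : ℕ) (hL : B + M + 1 ≤ 2 ^ L) (ω : ∀ j, R j) (l1 l2 : ℝ)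
    (h1 : ∀ k ≤ M, ∀ b ≤ 2 ^ L, |Sv f τ (clk (Cv f τ) x ((k * B + b : ℕ) : ℝ)) ω - Sv f τ (clk (Cv f τ) x ((k * B : ℕ) : ℝ)) ω| ≤ l1)
    (h2 : ∀ a ≤ ⌊Cv f τ x⌋₊, ∀ y, clk (Cv f τ) x (a : ℕ) ≤ y → y ≤ clk (Cv f τ) x ((a + 1 : ℕ) : ℝ) →
      |Sv f τ y ω - Sv f τ (clk (Cv f τ) x (a : ℕ)) ω| ≤ l2) (u : ℝ) (hu0 : 0 ≤ u) (hu1 : u ≤ 1) :
    |pth f τ x ω u - stepPath M (fun k => inc f τ x B ω k) u| ≤
      (l1 + l2) / √(Cv f τ x) + √(2 / Cv f τ x) * ∑ k : Fin M, |inc f τ x B ω k| := by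
  obtain ⟨V, hV⟩ : ∃ V, V = Cv f τ x := ⟨_, rfl⟩
  have hMr : (0 : ℝ) < M := by exact_mod_cast hM
  have hVM : 0 ≤ V / M := by
    have : 0 ≤ V := by rw [hV]; exact var_nonneg _ _
    positivity
  have hBle : (B : ℝ) ≤ V / M := by
    rw [hB, hV]
    exact Nat.floor_le (by rw [← hV]; exact hVM)
  have hBlt : V / M < B + 1 := by
    rw [hB, hV]
    exact Nat.lt_floor_add_one _
  have hB2r : (2 : ℝ) ≤ B := by exact_mod_cast hB2
  have hVpos : 0 < V := by
    have h3 : 0 < V / M := by linarith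
    exact (div_pos_iff_of_pos_right hMr).1 h3
  have hMB : (M : ℝ) * B ≤ V := by
    rw [le_div_iff₀ hMr] at hBle
    linarith
  obtain ⟨k, hk⟩ : ∃ k, k = ⌊u * M⌋₊ := ⟨_, rfl⟩
  have hkM : k ≤ M := by
    rw [hk]
    apply Nat.floor_le_of_le
    nlinarith
  have hk1 : (k : ℝ) ≤ u * M := by
    rw [hk]
    exact Nat.floor_le (by positivity)
  have hk2 : u * M < k + 1 := by
    rw [hk]
    exact Nat.lt_floor_add_one _
  obtain ⟨a, ha⟩ : ∃ a, a = ⌊u * V⌋₊ := ⟨_, rfl⟩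
  have ha1 : (a : ℝ) ≤ u * V := by
    rw [ha]
    exact Nat.floor_le (by positivity)
  have ha2 : u * V < a + 1 := by
    rw [ha]
    exact Nat.lt_floor_add_one _
  have haV : a ≤ ⌊Cv f τ x⌋₊ := by
    rw [ha, ← hV]
    apply Nat.floor_le_floor
    nlinarith
  -- cell
  have hcell := h2 a haV (clk (Cv f τ) x (u * V)) (clk_mono _ _ ha1) (clk_mono _ _ (by push_cast; linarith))
  -- block
  have hkBa : k * B ≤ a := by
    rw [ha]
    apply Nat.le_floor
    push_cast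
    calc (k : ℝ) * B ≤ u * M * (V / M) := by gcongr
      _ = u * V := by field_simp
  have hab : a - k * B ≤ 2 ^ L := by
    have h3 : (a : ℝ) < (k + 1) * (B + 1) := by
      calc (a : ℝ) ≤ u * V := ha1
        _ = u * M * (V / M) := by field_simp
        _ ≤ (k + 1) * (V / M) := by gcongr
        _ < (k + 1) * (B + 1) := by
            apply mul_lt_mul_of_pos_left hBlt
            positivity
    have h4 : a < (k + 1) * (B + 1) := by exact_mod_cast h3
    have h5 : (k + 1) * (B + 1) = k * B + (B + k + 1) := by ring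
    omega
  have hblock := h1 k hkM (a - k * B) hab
  have e1 : k * B + (a - k * B) = a := by omega
  rw [e1] at hblock
  -- telescoping
  have hZ0 : Sv f τ (bd f τ x B 0) ω = 0 := by
    unfold Sv
    apply zero_var
    have h3 := clk_spec (Cv f τ) x ((0 * B : ℕ) : ℝ) (by rw [Cv_zero f τ hτ1]; positivity)
    rw [zero_mul, Nat.cast_zero] at h3
    unfold bd
    rw [zero_mul, Nat.cast_zero]
    exact h3
  have htel : Sv f τ (clk (Cv f τ) x ((k * B : ℕ) : ℝ)) ω =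
      ∑ l : Fin M, if (l : ℕ) < k then (Sv f τ (bd f τ x B (l + 1)) ω - Sv f τ (bd f τ x B l) ω) else 0 := by
    have h3 : ∑ l : Fin M, (if (l : ℕ) < k then (Sv f τ (bd f τ x B (l + 1)) ω - Sv f τ (bd f τ x B l) ω) else 0) =
        ∑ l ∈ range M, if l < k then (Sv f τ (bd f τ x B (l + 1)) ω - Sv f τ (bd f τ x B l) ω) else 0 :=
      Fin.sum_univ_eq_sum_range (fun l => if l < k then (Sv f τ (bd f τ x B (l + 1)) ω - Sv f τ (bd f τ x B l) ω) else 0) M
    rw [h3, ← sum_filter]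
    have h4 : (range M).filter (fun l => l < k) = range k := by
      ext l
      rw [mem_filter, mem_range, mem_range]
      omega
    rw [h4, sum_range_sub (fun l => Sv f τ (bd f τ x B l) ω), hZ0, sub_zero]
    rfl
  -- the weights
  obtain ⟨W, hW⟩ : ∃ W : ℕ → ℝ, W = fun l => var f (seg τ (bd f τ x B l) (bd f τ x B (l + 1))) := ⟨_, rfl⟩
  have hWb : ∀ l < M, (B : ℝ) - 1 ≤ W l ∧ W l ≤ B + 1 := by
    intro l hl
    rw [hW]
    apply block_var f hf τ hτ hτ1 x B l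
    have h3 : ((l + 1) * B : ℕ) ≤ M * B := Nat.mul_le_mul_right B hl
    have h4 : (((l + 1) * B : ℕ) : ℝ) ≤ ((M * B : ℕ) : ℝ) := by exact_mod_cast h3
    rw [← hV]
    push_cast at h4 ⊢
    linarith
  have hsV : 0 < √V := Real.sqrt_pos.2 hVpos
  have hsM : 0 < √(M : ℝ) := Real.sqrt_pos.2 hMr
  have hterm : ∀ l : Fin M, |(if (l : ℕ) < k then (Sv f τ (bd f τ x B (l + 1)) ω - Sv f τ (bd f τ x B l) ω) else 0) / √V -
      (if (l : ℕ) < k then inc f τ x B ω l else 0) / √(M : ℝ)| ≤ √(2 / V) * |inc f τ x B ω l| := by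
    intro l
    split_ifs
    · have hWl := hWb l l.2
      have hWpos : 0 < W l := by linarith [hWl.1]
      have e2 : Sv f τ (bd f τ x B (l + 1)) ω - Sv f τ (bd f τ x B l) ω = inc f τ x B ω l * √(W l) := by
        unfold inc
        rw [hW]
        rw [hW] at hWpos
        have : √(var f (seg τ (bd f τ x B l) (bd f τ x B (l + 1)))) ≠ 0 := (Real.sqrt_pos.2 hWpos).ne'
        field_simp
      rw [e2]
      have e3 : inc f τ x B ω l * √(W l) / √V - inc f τ x B ω l / √(M : ℝ) =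
          inc f τ x B ω l * (√(W l / V) - √(1 / (M : ℝ))) := by
        rw [Real.sqrt_div' _ hVpos.le, Real.sqrt_div' _ hMr.le, Real.sqrt_one]
        ring
      rw [e3, abs_mul, mul_comm]
      apply mul_le_mul_of_nonneg_right _ (abs_nonneg _)
      refine (sqrt_diff _ _ (by positivity) (by positivity)).trans ?_
      apply Real.sqrt_le_sqrt
      rw [abs_le]
      have e4 : W l / V - 1 / (M : ℝ) = (W l - V / M) / V := by
        field_simp
      rw [e4]
      constructor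
      · rw [le_div_iff₀ hVpos]
        have : -(2 / V) * V = -2 := by field_simp
        rw [this]
        linarith [hWl.1]
      · rw [div_le_div_iff_of_pos_right hVpos]
        linarith [hWl.2]
    · rw [zero_div, zero_div, sub_zero, abs_zero]
      positivity
  have hsum : |Sv f τ (clk (Cv f τ) x ((k * B : ℕ) : ℝ)) ω / √V - stepPath M (fun l => inc f τ x B ω l) u| ≤
      √(2 / V) * ∑ l : Fin M, |inc f τ x B ω l| := by
    rw [htel]
    unfold stepPath
    rw [← hk, sum_div, sum_div, ← sum_sub_distrib, mul_sum]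
    exact (abs_sum_le_sum_abs _ _).trans (sum_le_sum fun l _ => hterm l)
  have hfirst : |pth f τ x ω u - Sv f τ (clk (Cv f τ) x ((k * B : ℕ) : ℝ)) ω / √V| ≤ (l1 + l2) / √V := by
    unfold pth
    rw [← hV, ← sub_div, abs_div, abs_of_pos hsV, div_le_div_iff_of_pos_right hsV]
    have h3 := abs_sub_le (Sv f τ (clk (Cv f τ) x (u * V)) ω) (Sv f τ (clk (Cv f τ) x (a : ℕ)) ω)
      (Sv f τ (clk (Cv f τ) x ((k * B : ℕ) : ℝ)) ω)
    linarith
  rw [← hV]
  have h3 := abs_sub_le (pth f τ x ω u) (Sv f τ (clk (Cv f τ) x ((k * B : ℕ) : ℝ)) ω / √V) (stepPath M (fun l => inc f τ x B ω l) u)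
  linarith

end Pool.Agent.K4H10.DN
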