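import Pool.Agent.K4H10.DN.A5

/-!
# The path over a well distributed family
-/

set_option autoImplicit false
set_option linter.unusedSectionVars false

namespace Pool.Agent.K4H10.DN

open Finset Pool.Agent.K4H16.CG

variable {J : Type} [Fintype J] [DecidableEq J] {R : J → Type} [∀ j, Fintype (R j)] [∀ j, Nonempty (R j)]

lemma seg_disj (f : ∀ j, R j → ℝ) (τ : J → ℕ) (x B : ℕ) {k l : ℕ} (h : k < l) :
    Disjoint (seg τ (bd f τ x B k) (bd f τ x B (k + 1))) (seg τ (bd f τ x B l) (bd f τ x B (l + 1))) := by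
  rw [disjoint_left]
  intro j h1 h2
  unfold seg at h1 h2
  rw [mem_filter] at h1 h2
  have h3 := bd_mono f τ x B (show k + 1 ≤ l from h)
  omega

/-- second moments of the normalised increments -/
lemma inc_sec (f : ∀ j, R j → ℝ) (hf : ∀ j b, |f j b| ≤ 1) (h0 : ∀ j, avg (f j) = 0) (τ : J → ℕ) (x B : ℕ) {ι : Type} (s : Finset ι)
    (ρ : ι → ∀ j, R j) (D : ℕ) (hD : 4 ≤ D) (δ : ℝ) (hδ : 0 ≤ δ) (heq : Equi s ρ D δ)
    (hJ : (Fintype.card J : ℝ) ^ 4 * δ ≤ 1) (k : ℕ) (hk : 1 ≤ var f (seg τ (bd f τ x B k) (bd f τ x B (k + 1)))) :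
    ∑ i ∈ s, (inc f τ x B (ρ i) k) ^ 2 ≤ 19 * s.card := by
  obtain ⟨W, hW⟩ : ∃ W, W = var f (seg τ (bd f τ x B k) (bd f τ x B (k + 1))) := ⟨_, rfl⟩
  rw [← hW] at hk
  have hW0 : 0 < W := by linarith
  have h1 := fam4 (res f (seg τ (bd f τ x B k) (bd f τ x B (k + 1)))) (res_abs f hf _) (res_avg f h0 _) s ρ D hD δ hδ heq hJ W hk (by
    rw [res_VV, ← hW]
    linarith)
  have h2 : ∀ i, (inc f τ x B (ρ i) k) ^ 2 = SS (res f (seg τ (bd f τ x B k) (bd f τ x B (k + 1)))) (ρ i) ^ 2 / W := by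
    intro i
    unfold inc
    rw [Sv_sub f τ (bd_mono f τ x B (Nat.le_succ k)), res_SS, div_pow, ← hW, Real.sq_sqrt hW0.le]
  rw [sum_congr rfl fun i _ => h2 i, ← sum_div, div_le_iff₀ hW0]
  have h4 : (∑ i ∈ s, SS (res f (seg τ (bd f τ x B k) (bd f τ x B (k + 1)))) (ρ i) ^ 2) ^ 2 ≤
      s.card * ∑ i ∈ s, (SS (res f (seg τ (bd f τ x B k) (bd f τ x B (k + 1)))) (ρ i) ^ 2) ^ 2 :=
    sq_sum_le_card_mul_sum_sq
  have h5 : ∑ i ∈ s, (SS (res f (seg τ (bd f τ x B k) (bd f τ x B (k + 1)))) (ρ i) ^ 2) ^ 2 ≤ 361 * W ^ 2 * s.card := by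
    refine le_trans (le_of_eq ?_) h1
    exact sum_congr rfl fun i _ => by ring
  have hs : (0 : ℝ) ≤ s.card := Nat.cast_nonneg _
  have h6 : (∑ i ∈ s, SS (res f (seg τ (bd f τ x B k) (bd f τ x B (k + 1)))) (ρ i) ^ 2) ^ 2 ≤ (19 * s.card * W) ^ 2 := by
    refine h4.trans ?_
    calc (s.card : ℝ) * ∑ i ∈ s, (SS (res f (seg τ (bd f τ x B k) (bd f τ x B (k + 1)))) (ρ i) ^ 2) ^ 2
        ≤ s.card * (361 * W ^ 2 * s.card) := by gcongr
      _ = (19 * s.card * W) ^ 2 := by ring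
  exact abs_le_of_sq_le_sq' h6 (by positivity) |>.2

open Classical in
/-- the joint law of the normalised increments -/
lemma inc_rect (M : ℕ) (e : ℝ) (he : 0 < e) : ∃ (m : ℕ) (η V₀ : ℝ), 0 < η ∧ 1 ≤ V₀ ∧
    ∀ (J : Type) [Fintype J] [DecidableEq J] (R : J → Type) [∀ j, Fintype (R j)] [∀ j, Nonempty (R j)]
      (f : ∀ j, R j → ℝ), (∀ j b, |f j b| ≤ 1) → (∀ j, avg (f j) = 0) → ∀ (τ : J → ℕ) (x B : ℕ),
      (∀ k < M, V₀ ≤ var f (seg τ (bd f τ x B k) (bd f τ x B (k + 1)))) →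
    ∀ (ι : Type) (s : Finset ι) (ρ : ι → ∀ j, R j) (δ : ℝ), 0 ≤ δ → Equi s ρ m δ → (Fintype.card J : ℝ) ^ m * δ ≤ η →
      Rect Phi e s (fun i (k : Fin M) => inc f τ x B (ρ i) k) := by
  obtain ⟨m, η, κ, V₀, hη, hκ, hV₀, H⟩ := joint_clt M e he
  refine ⟨m, η, V₀, hη, hV₀, ?_⟩
  intro J _ _ R _ _ f hf h0 τ x B hV ι s ρ δ hδ heq hJ c
  have hfin := H J R (fun l => res f (seg τ (bd f τ x B l) (bd f τ x B (l + 1)))) (fun l j b => res_abs f hf _ j b)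
    (fun l j => res_avg f h0 _ j) (by
      intro l
      rw [res_VV]
      exact hV l l.2) (by
      intro l l' hll
      have h1 : CV (res f (seg τ (bd f τ x B l) (bd f τ x B (l + 1)))) (res f (seg τ (bd f τ x B l') (bd f τ x B (l' + 1)))) = 0 := by
        apply res_CV
        rcases lt_or_gt_of_ne (fun h => hll (Fin.ext h) : (l : ℕ) ≠ l') with h | h
        · exact seg_disj f τ x B h
        · exact (seg_disj f τ x B h).symm
      rw [h1, abs_zero]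
      positivity) ι s ρ δ hδ heq hJ c
  have e1 : s.filter (fun i => ∀ k : Fin M, inc f τ x B (ρ i) k ≤ c k) =
      s.filter (fun i => ∀ l : Fin M, SS (res f (seg τ (bd f τ x B l) (bd f τ x B (l + 1)))) (ρ i) ≤
        c l * √(VV (res f (seg τ (bd f τ x B l) (bd f τ x B (l + 1)))))) := by
    apply filter_congr
    intro i _
    refine forall_congr' fun l => ?_
    have hpos : 0 < √(var f (seg τ (bd f τ x B l) (bd f τ x B (l + 1)))) :=
      Real.sqrt_pos.2 (by have := hV l l.2; linarith)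
    unfold inc
    rw [Sv_sub f τ (bd_mono f τ x B (Nat.le_succ _)), res_SS, res_VV, div_le_iff₀ hpos]
  rw [e1]
  convert hfin using 3

lemma exists_pow (n : ℕ) (hn : 0 < n) : ∃ L : ℕ, n ≤ 2 ^ L ∧ 2 ^ L ≤ 2 * n := by
  refine ⟨n.size, (Nat.lt_size_self n).le, ?_⟩
  have h1 : 0 < n.size := Nat.size_pos.2 hn
  have h2 : 2 ^ (n.size - 1) ≤ n := Nat.lt_size.1 (by omega)
  have h3 : 2 ^ n.size = 2 * 2 ^ (n.size - 1) := by
    rw [← pow_succ']
    congr 1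
    omega
  omega

open Classical in
/-- **The path over a well distributed family is close to a step path with nearly independent normal increments.** -/
theorem one (ε : ℝ) (hε : 0 < ε) : ∃ M : ℕ, 0 < M ∧ ∀ e : ℝ, 0 < e → ∃ (m : ℕ) (η V₀ : ℝ), 4 ≤ m ∧ 0 < η ∧ 1 ≤ V₀ ∧
    ∀ (J : Type) [Fintype J] [DecidableEq J] (R : J → Type) [∀ j, Fintype (R j)] [∀ j, Nonempty (R j)]
      (θ : ∀ j, R j → ℝ), (∀ j b, θ j b = 0 ∨ θ j b = 1) → ∀ (τ : J → ℕ) (x : ℕ), Function.Injective τ → (∀ j, 1 ≤ τ j) →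
      (∀ j, τ j ≤ x) → V₀ ≤ VV (ctr θ) →
    ∀ (ι : Type) (s : Finset ι) (ρ : ι → ∀ j, R j) (δ : ℝ), 0 ≤ δ → Equi s ρ m δ → (Fintype.card J : ℝ) ^ m * δ ≤ η →
      ∃ Y : ι → Fin M → ℝ, Rect Phi e s Y ∧ Sec 19 s Y ∧ ∀ F, BL F →
        |∑ i ∈ s, F (pth (ctr θ) τ x (ρ i)) - ∑ i ∈ s, F (stepPath M (Y i))| ≤ ε * s.card := by
  obtain ⟨η₁, hη₁⟩ : ∃ η₁ : ℝ, η₁ = ε / 12 := ⟨_, rfl⟩
  have hη₁0 : 0 < η₁ := by rw [hη₁]; positivity
  obtain ⟨M, hMbig⟩ := exists_nat_gt (max 1 (1040000000 / (η₁ ^ 4 * ε)))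
  have hM1 : (1 : ℝ) < M := (le_max_left _ _).trans_lt hMbig
  have hM2 : 1040000000 / (η₁ ^ 4 * ε) < M := (le_max_right _ _).trans_lt hMbig
  have hM0 : (0 : ℝ) < M := by linarith
  have hM : 0 < M := by exact_mod_cast hM0
  refine ⟨M, hM, ?_⟩
  intro e he
  obtain ⟨m₁, η₂, V₁, hη₂, hV₁, hrect⟩ := inc_rect M e he
  -- conditions on V
  obtain ⟨V₀, hV₀⟩ : ∃ V₀ : ℝ, V₀ = max 1 (max (M * (V₁ + 4 + M)) (max (23104 / (η₁ ^ 4 * ε)) ((4 * (4 + 15 * M) / ε) ^ 2))) := ⟨_, rfl⟩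
  refine ⟨max 4 m₁, min η₂ 1, V₀, le_max_left _ _, lt_min hη₂ one_pos, by rw [hV₀]; exact le_max_left _ _, ?_⟩
  intro J _ _ R _ _ θ hθ τ x hτ hτ1 hτx hV ι s ρ δ hδ heq hJ
  obtain ⟨f, hf⟩ : ∃ f, f = ctr θ := ⟨_, rfl⟩
  have hfabs : ∀ j b, |f j b| ≤ 1 := by rw [hf]; exact ctr_abs θ hθ
  have hfavg : ∀ j, avg (f j) = 0 := by rw [hf]; exact ctr_avg θ
  rw [← hf] at hV ⊢
  obtain ⟨V, hVd⟩ : ∃ V, V = Cv f τ x := ⟨_, rfl⟩
  have hVV : V = VV f := by rw [hVd]; exact Cv_top f τ x hτx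
  rw [← hVV] at hV
  have hVa : 1 ≤ V := by rw [hV₀] at hV; exact (le_max_left _ _).trans hV
  have hVb : M * (V₁ + 4 + M) ≤ V := by rw [hV₀] at hV; exact ((le_max_left _ _).trans (le_max_right _ _)).trans hV
  have hVc : 23104 / (η₁ ^ 4 * ε) ≤ V := by
    rw [hV₀] at hV; exact (((le_max_left _ _).trans (le_max_right _ _)).trans (le_max_right _ _)).trans hV
  have hVe : (4 * (4 + 15 * M) / ε) ^ 2 ≤ V := by
    rw [hV₀] at hV; exact (((le_max_right _ _).trans (le_max_right _ _)).trans (le_max_right _ _)).trans hV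
  have hV0 : 0 < V := by linarith
  have hsV : 0 < √V := Real.sqrt_pos.2 hV0
  have hsV2 : √V ^ 2 = V := Real.sq_sqrt hV0.le
  -- the number of the places is positive
  have hJpos : (1 : ℝ) ≤ Fintype.card J := by
    have h1 : V ≤ Fintype.card J := by
      rw [hVV]
      unfold VV
      refine (sum_le_sum fun j _ => avg_sq_le_one (f j) (hfabs j)).trans ?_
      simp
    linarith
  have hJ4 : (Fintype.card J : ℝ) ^ 4 * δ ≤ 1 := by
    have h1 : (Fintype.card J : ℝ) ^ 4 ≤ (Fintype.card J : ℝ) ^ (max 4 m₁) := pow_le_pow_right₀ hJpos (le_max_left _ _)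
    calc (Fintype.card J : ℝ) ^ 4 * δ ≤ (Fintype.card J : ℝ) ^ (max 4 m₁) * δ := by gcongr
      _ ≤ min η₂ 1 := hJ
      _ ≤ 1 := min_le_right _ _
  have hJm : (Fintype.card J : ℝ) ^ m₁ * δ ≤ η₂ := by
    have h1 : (Fintype.card J : ℝ) ^ m₁ ≤ (Fintype.card J : ℝ) ^ (max 4 m₁) := pow_le_pow_right₀ hJpos (le_max_right _ _)
    calc (Fintype.card J : ℝ) ^ m₁ * δ ≤ (Fintype.card J : ℝ) ^ (max 4 m₁) * δ := by gcongr
      _ ≤ min η₂ 1 := hJ
      _ ≤ η₂ := min_le_left _ _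
  have heq4 : Equi s ρ 4 δ := fun T hT h hh => heq T (hT.trans (le_max_left _ _)) h hh
  have heqm : Equi s ρ m₁ δ := fun T hT h hh => heq T (hT.trans (le_max_right _ _)) h hh
  -- the blocks
  obtain ⟨B, hB⟩ : ∃ B : ℕ, B = ⌊Cv f τ x / M⌋₊ := ⟨_, rfl⟩
  have hBle : (B : ℝ) ≤ V / M := by
    rw [hB, hVd]
    apply Nat.floor_le
    rw [← hVd]
    positivity
  have hBlt : V / M < B + 1 := by
    rw [hB, hVd]
    exact Nat.lt_floor_add_one _
  have hVM : V₁ + 4 + M ≤ V / M := by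
    rw [le_div_iff₀ hM0]
    linarith
  have hB3 : V₁ + 3 + M < (B : ℝ) := by linarith
  have hB2 : 2 ≤ B := by
    have : (2 : ℝ) < B := by linarith
    exact_mod_cast this.le
  have hMB : (M : ℝ) * B ≤ V := by
    rw [le_div_iff₀ hM0] at hBle
    linarith
  have hkB : ∀ k < M, (((k + 1) * B : ℕ) : ℝ) ≤ Cv f τ x := by
    intro k hk
    have h3 : ((k + 1) * B : ℕ) ≤ M * B := Nat.mul_le_mul_right B hk
    have h4 : (((k + 1) * B : ℕ) : ℝ) ≤ ((M * B : ℕ) : ℝ) := by exact_mod_cast h3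
    rw [← hVd]
    push_cast at h4 ⊢
    linarith
  have hvar : ∀ k < M, V₁ ≤ var f (seg τ (bd f τ x B k) (bd f τ x B (k + 1))) := by
    intro k hk
    have h1 := (block_var f hfabs τ hτ hτ1 x B k (hkB k hk)).1
    linarith
  obtain ⟨L, hL1, hL2⟩ := exists_pow (B + M + 1) (by omega)
  have hL3 : (2 : ℝ) ^ L ≤ 4 * (V / M) := by
    have h1 : ((2 ^ L : ℕ) : ℝ) ≤ ((2 * (B + M + 1) : ℕ) : ℝ) := by exact_mod_cast hL2
    push_cast at h1
    linarith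
  have hL4 : (4 : ℝ) ^ L ≤ 16 * (V ^ 2 / M ^ 2) := by
    have h1 : (4 : ℝ) ^ L = (2 ^ L) ^ 2 := by
      rw [← pow_mul, mul_comm, pow_mul]
      norm_num
    rw [h1]
    calc ((2 : ℝ) ^ L) ^ 2 ≤ (4 * (V / M)) ^ 2 := by gcongr
      _ = 16 * (V ^ 2 / M ^ 2) := by ring
  have hrect' := hrect J R f hfabs hfavg τ x B hvar ι s ρ δ hδ heqm hJm
  refine ⟨fun i (k : Fin M) => inc f τ x B (ρ i) k, hrect', ?_, ?_⟩
  · intro k
    exact inc_sec f hfabs hfavg τ x B s ρ 4 le_rfl δ hδ heq4 hJ4 k (hV₁.trans (hvar k k.2))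
  -- the exceptional sets
  obtain ⟨lam, hlam⟩ : ∃ lam : ℝ, lam = η₁ * √V := ⟨_, rfl⟩
  have hlam0 : 0 < lam := by rw [hlam]; positivity
  have hlam4 : lam ^ 4 = η₁ ^ 4 * V ^ 2 := by
    rw [hlam]
    have : (η₁ * √V) ^ 4 = η₁ ^ 4 * (√V ^ 2) ^ 2 := by ring
    rw [this, hsV2]
  obtain ⟨E1, hE1⟩ : ∃ E1 : ℕ → Finset ι, E1 = fun k => s.filter (fun i => ∃ b, b ≤ 2 ^ L ∧
    lam < |Sv f τ (clk (Cv f τ) x ((k * B + b : ℕ) : ℝ)) (ρ i) - Sv f τ (clk (Cv f τ) x ((k * B : ℕ) : ℝ)) (ρ i)|) := ⟨_, rfl⟩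
  obtain ⟨E2, hE2⟩ : ∃ E2 : Finset ι, E2 = s.filter (fun i => ∃ a, a ≤ ⌊Cv f τ x⌋₊ ∧ ∃ y, clk (Cv f τ) x (a : ℕ) ≤ y ∧
    y ≤ clk (Cv f τ) x ((a + 1 : ℕ) : ℝ) ∧ 2 * lam + 4 < |Sv f τ y (ρ i) - Sv f τ (clk (Cv f τ) x (a : ℕ)) (ρ i)|) := ⟨_, rfl⟩
  have hs0 : (0 : ℝ) ≤ s.card := Nat.cast_nonneg _
  have hE1c : ∀ k, ((E1 k).card : ℝ) ≤ 63536000 / (M ^ 2 * η₁ ^ 4) * s.card := by
    intro k
    have h1 := maxi s (fun a i => Sv f τ (clk (Cv f τ) x (a : ℕ)) (ρ i)) 361 (by norm_num) L (k * B) lam hlam0 (by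
      intro a' b' _ hab _
      exact grid4 f hfabs hfavg τ hτ hτ1 x s ρ 4 le_rfl δ hδ heq4 hJ4 a' b' hab)
    rw [hE1]
    refine h1.trans ?_
    apply mul_le_mul_of_nonneg_right _ hs0
    rw [hlam4]
    calc 11000 * 361 * 4 ^ L / (η₁ ^ 4 * V ^ 2) ≤ 11000 * 361 * (16 * (V ^ 2 / M ^ 2)) / (η₁ ^ 4 * V ^ 2) := by gcongr
      _ = 63536000 / (M ^ 2 * η₁ ^ 4) := by
          field_simp
          norm_num
  have hE2c : (E2.card : ℝ) ≤ 1444 / (η₁ ^ 4 * V) * s.card := by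
    have h1 := cell_bad θ hθ τ hτ hτ1 x s ρ 4 le_rfl δ hδ heq4 hJ4 ⌊Cv f τ x⌋₊ lam hlam0
    rw [← hf] at h1
    rw [hE2]
    refine h1.trans ?_
    apply mul_le_mul_of_nonneg_right _ hs0
    have h2 : ((⌊Cv f τ x⌋₊ : ℕ) : ℝ) + 1 ≤ 2 * V := by
      have := Nat.floor_le (show 0 ≤ Cv f τ x by rw [← hVd]; exact hV0.le)
      rw [← hVd] at this ⊢
      linarith
    rw [hlam4]
    calc (((⌊Cv f τ x⌋₊ : ℕ) : ℝ) + 1) * (722 / (η₁ ^ 4 * V ^ 2)) ≤ 2 * V * (722 / (η₁ ^ 4 * V ^ 2)) := by gcongr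
      _ = 1444 / (η₁ ^ 4 * V) := by
          field_simp
          norm_num
  intro F hF
  obtain ⟨Bad, hBad⟩ : ∃ Bad : Finset ι, Bad = (range (M + 1)).biUnion E1 ∪ E2 := ⟨_, rfl⟩
  have hBadc : (Bad.card : ℝ) ≤ (127072000 / (M * η₁ ^ 4) + 1444 / (η₁ ^ 4 * V)) * s.card := by
    have h1 : Bad.card ≤ ∑ k ∈ range (M + 1), (E1 k).card + E2.card := by
      rw [hBad]
      exact (card_union_le _ _).trans (Nat.add_le_add_right card_biUnion_le _)
    have h2 : (Bad.card : ℝ) ≤ ∑ k ∈ range (M + 1), ((E1 k).card : ℝ) + E2.card := by exact_mod_cast h1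
    have h3 : ∑ k ∈ range (M + 1), ((E1 k).card : ℝ) ≤ (M + 1) * (63536000 / (M ^ 2 * η₁ ^ 4) * s.card) := by
      refine (sum_le_sum fun k _ => hE1c k).trans ?_
      rw [sum_const, card_range, nsmul_eq_mul]
      push_cast
      exact le_rfl
    have h4 : ((M : ℝ) + 1) * (63536000 / (M ^ 2 * η₁ ^ 4) * s.card) ≤ 127072000 / (M * η₁ ^ 4) * s.card := by
      calc ((M : ℝ) + 1) * (63536000 / (M ^ 2 * η₁ ^ 4) * s.card) ≤ (2 * M) * (63536000 / (M ^ 2 * η₁ ^ 4) * s.card) := by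
            gcongr
            linarith
        _ = 127072000 / (M * η₁ ^ 4) * s.card := by
            field_simp
            ring
    linarith
  have hBads : Bad ⊆ s := by
    rw [hBad, hE1, hE2]
    intro i hi
    rw [mem_union, mem_biUnion] at hi
    rcases hi with ⟨k, _, h⟩ | h
    · exact (mem_filter.1 h).1
    · exact (mem_filter.1 h).1
  have hgood : ∀ i ∈ s, i ∉ Bad → |F (pth f τ x (ρ i)) - F (stepPath M (fun k : Fin M => inc f τ x B (ρ i) k))| ≤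
      (lam + (2 * lam + 4)) / √V + √(2 / V) * ∑ k : Fin M, |inc f τ x B (ρ i) k| := by
    intro i his hi
    rw [hBad, mem_union, mem_biUnion] at hi
    push Not at hi
    apply hF.2
    intro u hu0 hu1
    rw [hVd]
    apply path_step f hfabs τ hτ hτ1 x M B hM hB hB2 L hL1 (ρ i) lam (2 * lam + 4) _ _ u hu0 hu1
    · intro k hk b hb
      have h1 := hi.1 k (mem_range.2 (by omega))
      rw [hE1] at h1
      by_contra hcon
      push Not at hcon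
      exact h1 (mem_filter.2 ⟨his, b, hb, hcon⟩)
    · intro a ha y hy1 hy2
      have h1 := hi.2
      rw [hE2] at h1
      by_contra hcon
      push Not at hcon
      exact h1 (mem_filter.2 ⟨his, a, ha, y, hy1, hy2, hcon⟩)
  have hall : ∀ i ∈ s, |F (pth f τ x (ρ i)) - F (stepPath M (fun k : Fin M => inc f τ x B (ρ i) k))| ≤
      (if i ∈ Bad then 2 else 0) + ((lam + (2 * lam + 4)) / √V + √(2 / V) * ∑ k : Fin M, |inc f τ x B (ρ i) k|) := by
    intro i his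
    have hnn : 0 ≤ (lam + (2 * lam + 4)) / √V + √(2 / V) * ∑ k : Fin M, |inc f τ x B (ρ i) k| := by
      have : 0 ≤ ∑ k : Fin M, |inc f τ x B (ρ i) k| := sum_nonneg fun _ _ => abs_nonneg _
      positivity
    split_ifs with h
    · have h1 := hF.1 (pth f τ x (ρ i))
      have h2 := hF.1 (stepPath M (fun k : Fin M => inc f τ x B (ρ i) k))
      have h3 := abs_sub (F (pth f τ x (ρ i))) (F (stepPath M (fun k : Fin M => inc f τ x B (ρ i) k)))
      linarith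
    · rw [zero_add]
      exact hgood i his h
  rw [← sum_sub_distrib]
  refine (abs_sum_le_sum_abs _ _).trans ((sum_le_sum hall).trans ?_)
  rw [sum_add_distrib, sum_add_distrib, ← mul_sum]
  have hA : ∑ i ∈ s, (if i ∈ Bad then (2 : ℝ) else 0) = 2 * Bad.card := by
    rw [← sum_filter, filter_mem_eq_inter, inter_eq_right.2 hBads, sum_const, nsmul_eq_mul, mul_comm]
  have hBB : ∑ _i ∈ s, (lam + (2 * lam + 4)) / √V = (3 * η₁ + 4 / √V) * s.card := by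
    rw [sum_const, nsmul_eq_mul, hlam]
    field_simp
    ring
  have hC : ∑ i ∈ s, ∑ k : Fin M, |inc f τ x B (ρ i) k| ≤ 10 * M * s.card := by
    rw [sum_comm]
    have h1 : ∀ k ∈ (univ : Finset (Fin M)), ∑ i ∈ s, |inc f τ x B (ρ i) k| ≤ 10 * s.card := by
      intro k _
      have h2 := inc_sec f hfabs hfavg τ x B s ρ 4 le_rfl δ hδ heq4 hJ4 k (hV₁.trans (hvar k k.2))
      have h3 : ∀ i ∈ s, |inc f τ x B (ρ i) k| ≤ (1 + inc f τ x B (ρ i) k ^ 2) / 2 := by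
        intro i _
        have h4 := sq_nonneg (|inc f τ x B (ρ i) k| - 1)
        have h5 := sq_abs (inc f τ x B (ρ i) k)
        nlinarith
      refine (sum_le_sum h3).trans ?_
      rw [← sum_div, sum_add_distrib, sum_const, nsmul_eq_mul, mul_one]
      linarith
    refine (sum_le_sum h1).trans ?_
    rw [sum_const, card_univ, Fintype.card_fin, nsmul_eq_mul]
    apply le_of_eq
    ring
  rw [hA, hBB]
  have hsq2 : √(2 / V) ≤ 1.5 / √V := by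
    rw [Real.sqrt_div' _ hV0.le]
    gcongr
    rw [Real.sqrt_le_left (by norm_num)]
    norm_num
  have hD : √(2 / V) * ∑ i ∈ s, ∑ k : Fin M, |inc f τ x B (ρ i) k| ≤ 15 * M / √V * s.card := by
    calc √(2 / V) * ∑ i ∈ s, ∑ k : Fin M, |inc f τ x B (ρ i) k| ≤ 1.5 / √V * (10 * M * s.card) := by
          apply mul_le_mul hsq2 hC
          · exact sum_nonneg fun _ _ => sum_nonneg fun _ _ => abs_nonneg _
          · positivity
      _ = 15 * M / √V * s.card := by ring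
  -- the numbers
  have n1 : 2 * (127072000 / (M * η₁ ^ 4)) ≤ ε / 4 := by
    rw [div_lt_iff₀ (by positivity)] at hM2
    rw [← mul_div_assoc, div_le_iff₀ (by positivity)]
    nlinarith
  have n2 : 2 * (1444 / (η₁ ^ 4 * V)) ≤ ε / 8 := by
    rw [div_le_iff₀ (by positivity)] at hVc
    rw [← mul_div_assoc, div_le_iff₀ (by positivity)]
    nlinarith
  have n3 : 3 * η₁ = ε / 4 := by rw [hη₁]; ring
  have n4 : 4 / √V + 15 * M / √V ≤ ε / 4 := by
    rw [← add_div, div_le_iff₀ hsV]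
    have h1 : 4 * (4 + 15 * M) / ε ≤ √V := Real.le_sqrt_of_sq_le hVe
    rw [div_le_iff₀ hε] at h1
    linarith
  have hfin : 2 * (Bad.card : ℝ) + ((3 * η₁ + 4 / √V) * s.card + √(2 / V) * ∑ i ∈ s, ∑ k : Fin M, |inc f τ x B (ρ i) k|) ≤
      (2 * (127072000 / (M * η₁ ^ 4)) + 2 * (1444 / (η₁ ^ 4 * V)) + 3 * η₁ + (4 / √V + 15 * M / √V)) * s.card := by
    have := hBadc
    linarith
  refine hfin.trans ?_
  apply mul_le_mul_of_nonneg_right _ hs0
  linarith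

end Pool.Agent.K4H10.DN
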