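import Mathlib

/-!
# The reflection principle for the simple random walk
-/

set_option autoImplicit false

namespace Pool.Agent.K4H10.DN

open Finset

/-- the sum of the first `m` signs -/
def sg {n : ℕ} (e : Fin n → Bool) (m : ℕ) : ℤ := ∑ j : Fin n, if (j : ℕ) < m then (if e j then 1 else -1) else 0

lemma sg_zero {n : ℕ} (e : Fin n → Bool) : sg e 0 = 0 := by
  unfold sg
  simp

lemma sg_cons {n : ℕ} (b : Bool) (e : Fin n → Bool) (m : ℕ) :
    sg (Fin.cons b e : Fin (n + 1) → Bool) (m + 1) = (if b then 1 else -1) + sg e m := by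
  unfold sg
  rw [Fin.sum_univ_succ]
  simp

lemma sg_neg {n : ℕ} (e : Fin n → Bool) (m : ℕ) : sg (fun j => !(e j)) m = -sg e m := by
  unfold sg
  rw [← sum_neg_distrib]
  refine sum_congr rfl fun j _ => ?_
  split_ifs with h1 h2 h3 <;> simp_all

open Classical in
/-- the number of the walks with `P` -/
noncomputable def cnt (n : ℕ) (P : (Fin n → Bool) → Prop) : ℕ := (univ.filter P).card

lemma card_eq_cnt (n : ℕ) (P : (Fin n → Bool) → Prop) [DecidablePred P] : (univ.filter P).card = cnt n P := by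
  unfold cnt
  congr

lemma cnt_not (n : ℕ) (P : (Fin n → Bool) → Prop) : (cnt n P : ℝ) + cnt n (fun e => ¬ P e) = 2 ^ n := by
  classical
  have h := card_filter_add_card_filter_not (s := (univ : Finset (Fin n → Bool))) P
  have hcard : (univ : Finset (Fin n → Bool)).card = 2 ^ n := by simp
  rw [hcard, card_eq_cnt, card_eq_cnt] at h
  exact_mod_cast h

open Classical in
lemma cnt_succ (n : ℕ) (P : (Fin (n + 1) → Bool) → Prop) :
    cnt (n + 1) P = cnt n (fun e => P (Fin.cons true e)) + cnt n (fun e => P (Fin.cons false e)) := by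
  unfold cnt
  rw [card_filter, card_filter, card_filter, ← (Fin.consEquiv (fun _ : Fin (n + 1) => Bool)).sum_comp,
    Fintype.sum_prod_type, Fintype.sum_bool]
  rfl

/-- the number of the walks which reach `r` -/
noncomputable def Nmax (n : ℕ) (r : ℤ) : ℕ := cnt n (fun e => ∃ m ≤ n, r ≤ sg e m)

/-- the number of the walks which end at `r` or above, plus the number of those which end above `r` -/
noncomputable def Wend (n : ℕ) (r : ℤ) : ℕ := cnt n (fun e => r ≤ sg e n) + cnt n (fun e => r < sg e n)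

open Classical in
lemma cnt_congr (n : ℕ) (P Q : (Fin n → Bool) → Prop) (h : ∀ e, P e ↔ Q e) : cnt n P = cnt n Q := by
  unfold cnt
  congr 1
  ext e
  simp [h e]

lemma Nmax_succ (n : ℕ) (r : ℤ) (hr : 1 ≤ r) : Nmax (n + 1) r = Nmax n (r - 1) + Nmax n (r + 1) := by
  unfold Nmax
  rw [cnt_succ]
  have key : ∀ (b : Bool) (e : Fin n → Bool), (∃ m ≤ n + 1, r ≤ sg (Fin.cons b e : Fin (n + 1) → Bool) m) ↔
      ∃ m ≤ n, r - (if b then 1 else -1) ≤ sg e m := by
    intro b e
    constructor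
    · rintro ⟨m, hm, h⟩
      rcases m with _ | m
      · rw [sg_zero] at h
        omega
      · rw [sg_cons] at h
        exact ⟨m, by omega, by linarith⟩
    · rintro ⟨m, hm, h⟩
      refine ⟨m + 1, by omega, ?_⟩
      rw [sg_cons]
      linarith
  congr 1
  · apply cnt_congr
    intro e
    rw [key true e]
    simp
  · apply cnt_congr
    intro e
    rw [key false e]
    simp

lemma Wend_succ (n : ℕ) (r : ℤ) : Wend (n + 1) r = Wend n (r - 1) + Wend n (r + 1) := by
  unfold Wend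
  rw [cnt_succ, cnt_succ]
  have k1 : ∀ (e : Fin n → Bool), (r ≤ sg (Fin.cons true e : Fin (n + 1) → Bool) (n + 1)) ↔ r - 1 ≤ sg e n := by
    intro e
    rw [sg_cons, if_pos rfl]
    constructor <;> intro h <;> linarith
  have k2 : ∀ (e : Fin n → Bool), (r ≤ sg (Fin.cons false e : Fin (n + 1) → Bool) (n + 1)) ↔ r + 1 ≤ sg e n := by
    intro e
    rw [sg_cons, if_neg (by simp)]
    constructor <;> intro h <;> linarith
  have k3 : ∀ (e : Fin n → Bool), (r < sg (Fin.cons true e : Fin (n + 1) → Bool) (n + 1)) ↔ r - 1 < sg e n := by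
    intro e
    rw [sg_cons, if_pos rfl]
    constructor <;> intro h <;> linarith
  have k4 : ∀ (e : Fin n → Bool), (r < sg (Fin.cons false e : Fin (n + 1) → Bool) (n + 1)) ↔ r + 1 < sg e n := by
    intro e
    rw [sg_cons, if_neg (by simp)]
    constructor <;> intro h <;> linarith
  rw [cnt_congr n _ _ k1, cnt_congr n _ _ k2, cnt_congr n _ _ k3, cnt_congr n _ _ k4]
  ring

lemma cnt_all (n : ℕ) (P : (Fin n → Bool) → Prop) (h : ∀ e, P e) : cnt n P = 2 ^ n := by
  classical
  rw [← card_eq_cnt, filter_true_of_mem fun e _ => h e]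
  simp

lemma cnt_none (n : ℕ) (P : (Fin n → Bool) → Prop) (h : ∀ e, ¬ P e) : cnt n P = 0 := by
  classical
  rw [← card_eq_cnt, filter_false_of_mem fun e _ => h e, card_empty]

lemma cnt_flip (n : ℕ) (P : (Fin n → Bool) → Prop) : cnt n (fun e => P (fun j => !(e j))) = cnt n P := by
  classical
  rw [← card_eq_cnt, ← card_eq_cnt]
  apply card_bij' (fun e _ => fun j => !(e j)) (fun e _ => fun j => !(e j))
  · intro e he
    rw [mem_filter] at he ⊢
    exact ⟨mem_univ _, he.2⟩
  · intro e he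
    rw [mem_filter] at he ⊢
    refine ⟨mem_univ _, ?_⟩
    simpa using he.2
  · intro e _
    funext j
    simp
  · intro e _
    funext j
    simp

lemma Nmax_zero (n : ℕ) (r : ℤ) (hr : r ≤ 0) : Nmax n r = 2 ^ n := by
  unfold Nmax
  exact cnt_all n _ fun e => ⟨0, Nat.zero_le _, by rw [sg_zero]; exact hr⟩

lemma Wend_zero (n : ℕ) : Wend n 0 = 2 ^ n := by
  unfold Wend
  have h1 : cnt n (fun e => 0 < sg e n) = cnt n (fun e => ¬ 0 ≤ sg e n) := by
    rw [← cnt_flip n (fun e => 0 < sg e n)]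
    apply cnt_congr
    intro e
    rw [sg_neg]
    constructor <;> intro h <;> linarith
  rw [h1]
  have h2 := cnt_not n (fun e => 0 ≤ sg e n)
  exact_mod_cast h2

/-- the reflection principle -/
lemma reflection (n : ℕ) : ∀ r : ℤ, 0 ≤ r → Nmax n r = Wend n r := by
  induction n with
  | zero =>
    intro r hr
    rcases hr.eq_or_lt with h | h
    · rw [← h, Nmax_zero 0 0 le_rfl, Wend_zero]
    · unfold Nmax Wend
      have h1 : ∀ (e : Fin 0 → Bool) (m : ℕ), sg e m = 0 := by
        intro e m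
        unfold sg
        simp
      rw [cnt_none, cnt_none, cnt_none]
      · intro e
        rw [h1]
        linarith
      · intro e
        rw [h1]
        linarith
      · intro e
        push Not
        intro m _
        rw [h1]
        exact h
  | succ n ih =>
    intro r hr
    rcases hr.eq_or_lt with h | h
    · rw [← h, Nmax_zero (n + 1) 0 le_rfl, Wend_zero]
    · rw [Nmax_succ n r (by omega), Wend_succ, ih (r - 1) (by omega), ih (r + 1) (by omega)]

open Classical in
/-- the number of the walks which stay below `z` -/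
lemma stay_below (n : ℕ) (z : ℝ) (hz : 0 ≤ z) :
    ((univ.filter (fun e : Fin n → Bool => ∀ m ≤ n, (sg e m : ℝ) ≤ z)).card : ℝ) =
      ((univ.filter (fun e : Fin n → Bool => (sg e n : ℝ) ≤ ((⌊z⌋ : ℤ) : ℝ))).card : ℝ) +
      ((univ.filter (fun e : Fin n → Bool => (sg e n : ℝ) ≤ ((⌊z⌋ + 1 : ℤ) : ℝ))).card : ℝ) - 2 ^ n := by
  have hr : (0 : ℤ) ≤ ⌊z⌋ + 1 := by
    have : 0 ≤ ⌊z⌋ := Int.floor_nonneg.2 hz
    omega
  have h0 := reflection n (⌊z⌋ + 1) hr
  unfold Nmax Wend at h0
  have hA := cnt_not n (fun e => ∃ m ≤ n, ⌊z⌋ + 1 ≤ sg e m)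
  have hB := cnt_not n (fun e => ⌊z⌋ + 1 ≤ sg e n)
  have hC := cnt_not n (fun e => ⌊z⌋ + 1 < sg e n)
  rw [card_eq_cnt, card_eq_cnt, card_eq_cnt]
  have e1 : cnt n (fun e => ∀ m ≤ n, (sg e m : ℝ) ≤ z) = cnt n (fun e => ¬ ∃ m ≤ n, ⌊z⌋ + 1 ≤ sg e m) := by
    apply cnt_congr
    intro e
    push Not
    refine forall_congr' fun m => forall_congr' fun _ => ?_
    rw [← Int.le_floor]
    omega
  have e2 : cnt n (fun e => (sg e n : ℝ) ≤ ((⌊z⌋ : ℤ) : ℝ)) = cnt n (fun e => ¬ ⌊z⌋ + 1 ≤ sg e n) := by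
    apply cnt_congr
    intro e
    rw [Int.cast_le]
    omega
  have e3 : cnt n (fun e => (sg e n : ℝ) ≤ ((⌊z⌋ + 1 : ℤ) : ℝ)) = cnt n (fun e => ¬ ⌊z⌋ + 1 < sg e n) := by
    apply cnt_congr
    intro e
    rw [Int.cast_le, not_lt]
  rw [e1, e2, e3]
  have h0' : (cnt n (fun e => ∃ m ≤ n, ⌊z⌋ + 1 ≤ sg e m) : ℝ) = cnt n (fun e => ⌊z⌋ + 1 ≤ sg e n) + cnt n (fun e => ⌊z⌋ + 1 < sg e n) := by
    exact_mod_cast h0
  linarith

end Pool.Agent.K4H10.DN
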