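import Pool.Agent.K4H10.DN.A6
import Pool.Agent.K4H10.DN.A9
import Pool.Agent.K4H16.CG.Clt

/-!
# Two families; the random walk
-/

set_option autoImplicit false
set_option linter.unusedSectionVars false

namespace Pool.Agent.K4H10.DN

open Finset Pool.Agent.K4H16.CG

/-- the paths `P i`, `i ∈ s`, are well approximated by step paths -/
def Good (M : ℕ) (e ε : ℝ) {ι : Type} (s : Finset ι) (P : ι → ℝ → ℝ) : Prop :=
  ∃ Y : ι → Fin M → ℝ, Rect Phi e s Y ∧ Sec 19 s Y ∧ ∀ F, BL F →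
    |∑ i ∈ s, F (P i) - ∑ i ∈ s, F (stepPath M (Y i))| ≤ ε * s.card

theorem consts (ε : ℝ) (hε : 0 < ε) : ∃ (M : ℕ) (e : ℝ),
    (∀ (ι : Type) (s : Finset ι) (P : ι → ℝ → ℝ) (ι' : Type) (s' : Finset ι') (P' : ι' → ℝ → ℝ), s.Nonempty → s'.Nonempty →
      Good M e (ε / 3) s P → Good M e (ε / 3) s' P' → ∀ F, BL F →
      |(∑ i ∈ s, F (P i)) / s.card - (∑ i ∈ s', F (P' i)) / s'.card| ≤ ε) ∧
    ∃ (m : ℕ) (η V₀ : ℝ), 4 ≤ m ∧ 0 < η ∧ 1 ≤ V₀ ∧
    ∀ (J : Type) [Fintype J] [DecidableEq J] (R : J → Type) [∀ j, Fintype (R j)] [∀ j, Nonempty (R j)]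
      (θ : ∀ j, R j → ℝ), (∀ j b, θ j b = 0 ∨ θ j b = 1) → ∀ (τ : J → ℕ) (x : ℕ), Function.Injective τ → (∀ j, 1 ≤ τ j) →
      (∀ j, τ j ≤ x) → V₀ ≤ VV (ctr θ) →
    ∀ (ι : Type) (s : Finset ι) (ρ : ι → ∀ j, R j) (δ : ℝ), 0 ≤ δ → Equi s ρ m δ → (Fintype.card J : ℝ) ^ m * δ ≤ η →
      Good M e (ε / 3) s (fun i => pth (ctr θ) τ x (ρ i)) := by
  obtain ⟨M, hM, H⟩ := one (ε / 3) (by positivity)
  obtain ⟨e, he, hcmp⟩ := compare Phi M 19 M (ε / 3) (by norm_num) (Nat.cast_nonneg _) (by positivity)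
  obtain ⟨m, η, V₀, hm, hη, hV₀, H'⟩ := H e he
  refine ⟨M, e, ?_, m, η, V₀, hm, hη, hV₀, fun J _ _ R _ _ θ hθ τ x hτ hτ1 hτx hV ι s ρ δ hδ heq hJ =>
    H' J R θ hθ τ x hτ hτ1 hτx hV ι s ρ δ hδ heq hJ⟩
  intro ι s P ι' s' P' hs hs' hP hP' F hF
  obtain ⟨Y, hY1, hY2, hY3⟩ := hP
  obtain ⟨Y', hY1', hY2', hY3'⟩ := hP'
  have h1 := hY3 F hF
  have h2 := hY3' F hF
  have h3 := hcmp ι s Y ι' s' Y' hs hs' hY1 hY1' hY2 hY2' (fun y => F (stepPath M y)) (fun y => hF.1 _) (by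
    intro y y' d hd h
    exact hF.2 _ _ _ fun u _ _ => stepPath_close M y y' d hd h u)
  have hsc : (0 : ℝ) < s.card := by exact_mod_cast hs.card_pos
  have hsc' : (0 : ℝ) < s'.card := by exact_mod_cast hs'.card_pos
  have h1' : |(∑ i ∈ s, F (P i)) / s.card - (∑ i ∈ s, F (stepPath M (Y i))) / s.card| ≤ ε / 3 := by
    rw [← sub_div, abs_div, abs_of_pos hsc, div_le_iff₀ hsc]
    exact h1
  have h2' : |(∑ i ∈ s', F (P' i)) / s'.card - (∑ i ∈ s', F (stepPath M (Y' i))) / s'.card| ≤ ε / 3 := by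
    rw [← sub_div, abs_div, abs_of_pos hsc', div_le_iff₀ hsc']
    exact h2
  rw [abs_le] at h1' h2' h3 ⊢
  constructor <;> linarith [h1'.1, h1'.2, h2'.1, h2'.2, h3.1, h3.2]

section walk

/-- the marks of the walk -/
noncomputable def θw (N : ℕ) (_j : Fin N) (b : Bool) : ℝ := if b then 1 else 0

def τw (N : ℕ) (j : Fin N) : ℕ := (j : ℕ) + 1

lemma θw_avg (N : ℕ) (j : Fin N) : avg (θw N j) = 1 / 2 := by
  unfold avg θw
  simp

lemma ctr_w (N : ℕ) (j : Fin N) (b : Bool) : ctr (θw N) j b = (if b then (1 : ℝ) else -1) / 2 := by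
  unfold ctr
  rw [θw_avg]
  unfold θw
  cases b <;> norm_num

lemma ctr_w_sq (N : ℕ) (j : Fin N) : avg (fun b => ctr (θw N) j b ^ 2) = 1 / 4 := by
  have h1 : (fun b => ctr (θw N) j b ^ 2) = fun _ => (1 / 4 : ℝ) := by
    funext b
    rw [ctr_w]
    cases b <;> norm_num
  rw [h1]
  unfold avg
  simp

lemma Cv_w (N y : ℕ) (hy : y ≤ N) : Cv (ctr (θw N)) (τw N) y = y / 4 := by
  unfold Cv var
  rw [sum_congr rfl fun j _ => ctr_w_sq N j, sum_const, nsmul_eq_mul]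
  have h1 : (upto (τw N) y).card = y := by
    unfold upto τw
    have h2 : (univ.filter (fun j : Fin N => (j : ℕ) + 1 ≤ y)).card = (range y).card := by
      apply card_bij (fun (j : Fin N) _ => (j : ℕ))
      · intro j hj
        rw [mem_filter] at hj
        rw [mem_range]
        omega
      · intro a _ b _ h
        exact Fin.ext h
      · intro l hl
        rw [mem_range] at hl
        exact ⟨⟨l, by omega⟩, by rw [mem_filter]; exact ⟨mem_univ _, by show l + 1 ≤ y; omega⟩, rfl⟩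
    rw [h2, card_range]
  rw [h1]
  ring

lemma VV_w (N : ℕ) : VV (ctr (θw N)) = N / 4 := by
  rw [← Cv_top (ctr (θw N)) (τw N) N (fun j => by unfold τw; omega), Cv_w N N le_rfl]

lemma Sv_w (N y : ℕ) (e : Fin N → Bool) : Sv (ctr (θw N)) (τw N) y e = (sg e y : ℝ) / 2 := by
  unfold Sv sg upto τw
  push_cast
  rw [sum_filter, sum_div]
  refine sum_congr rfl fun j _ => ?_
  rw [ctr_w]
  by_cases h : (j : ℕ) < y
  · rw [if_pos (by omega : (j : ℕ) + 1 ≤ y), if_pos h]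
  · rw [if_neg (by omega : ¬ (j : ℕ) + 1 ≤ y), if_neg h, zero_div]

lemma clk_w (N : ℕ) (hN : 0 < N) (u : ℝ) (hu0 : 0 ≤ u) (hu1 : u ≤ 1) :
    clk (Cv (ctr (θw N)) (τw N)) N (u * Cv (ctr (θw N)) (τw N) N) = ⌊u * N⌋₊ := by
  have hN0 : (0 : ℝ) < N := by exact_mod_cast hN
  have hfl : ⌊u * N⌋₊ ≤ N := by
    apply Nat.floor_le_of_le
    nlinarith
  have hfl1 : ((⌊u * N⌋₊ : ℕ) : ℝ) ≤ u * N := Nat.floor_le (by positivity)
  apply le_antisymm
  · apply Nat.le_floor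
    have h1 := clk_spec (Cv (ctr (θw N)) (τw N)) N (u * Cv (ctr (θw N)) (τw N) N) (by
      rw [Cv_w N 0 (Nat.zero_le _), Cv_w N N le_rfl, Nat.cast_zero, zero_div]
      positivity)
    rw [Cv_w N _ (clk_le _ _ _), Cv_w N N le_rfl] at h1
    rw [Cv_w N N le_rfl]
    linarith
  · apply clk_max _ _ _ _ hfl
    rw [Cv_w N _ hfl, Cv_w N N le_rfl]
    linarith

lemma pth_w (N : ℕ) (hN : 0 < N) (e : Fin N → Bool) (u : ℝ) (hu0 : 0 ≤ u) (hu1 : u ≤ 1) :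
    pth (ctr (θw N)) (τw N) N e u = walk N e u := by
  unfold pth
  rw [clk_w N hN u hu0 hu1, Sv_w, Cv_w N N le_rfl]
  unfold walk sg
  push_cast
  rw [Real.sqrt_div' _ (by norm_num : (0 : ℝ) ≤ 4)]
  have h4 : √(4 : ℝ) = 2 := by
    rw [show (4 : ℝ) = 2 ^ 2 by norm_num]
    exact Real.sqrt_sq (by norm_num)
  rw [h4, div_div_div_cancel_right₀ (by norm_num)]

lemma equi_w (N k : ℕ) : Equi (univ : Finset (Fin N → Bool)) (fun e => e) k 0 := by
  intro S _ h _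
  have h1 := avg_pi_prod (J := Fin N) (R := fun _ => Bool) S h
  have hc : (Fintype.card (Fin N → Bool) : ℝ) ≠ 0 := by exact_mod_cast Fintype.card_ne_zero
  rw [div_eq_iff hc] at h1
  rw [h1, card_univ, mul_comm, sub_self, abs_zero, zero_mul]

theorem walk_good (M : ℕ) (e ε : ℝ) (m : ℕ) (η V₀ : ℝ) (hη : 0 < η) (hV₀ : 1 ≤ V₀)
    (H : ∀ (J : Type) [Fintype J] [DecidableEq J] (R : J → Type) [∀ j, Fintype (R j)] [∀ j, Nonempty (R j)]
      (θ : ∀ j, R j → ℝ), (∀ j b, θ j b = 0 ∨ θ j b = 1) → ∀ (τ : J → ℕ) (x : ℕ), Function.Injective τ → (∀ j, 1 ≤ τ j) →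
      (∀ j, τ j ≤ x) → V₀ ≤ VV (ctr θ) →
    ∀ (ι : Type) (s : Finset ι) (ρ : ι → ∀ j, R j) (δ : ℝ), 0 ≤ δ → Equi s ρ m δ → (Fintype.card J : ℝ) ^ m * δ ≤ η →
      Good M e (ε / 3) s (fun i => pth (ctr θ) τ x (ρ i))) (N : ℕ) (hN : 4 * V₀ ≤ N) :
    Good M e (ε / 3) (univ : Finset (Fin N → Bool)) (fun e => walk N e) := by
  have hN0 : 0 < N := by
    have : (0 : ℝ) < N := by linarith
    exact_mod_cast this
  have h1 := H (Fin N) (fun _ => Bool) (θw N) (by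
    intro j b
    unfold θw
    cases b <;> simp) (τw N) N (by
    intro a b h
    unfold τw at h
    exact Fin.ext (by omega)) (by
    intro j
    unfold τw
    omega) (by
    intro j
    unfold τw
    omega) (by
    rw [VV_w]
    linarith) (Fin N → Bool) univ (fun e => e) 0 le_rfl (equi_w N m) (by
    rw [mul_zero]
    exact hη.le)
  obtain ⟨Y, hY1, hY2, hY3⟩ := h1
  refine ⟨Y, hY1, hY2, fun F hF => ?_⟩
  have h2 : ∀ e' : Fin N → Bool, F (walk N e') = F (pth (ctr (θw N)) (τw N) N e') := by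
    intro e'
    have h3 := hF.2 (walk N e') (pth (ctr (θw N)) (τw N) N e') 0 (by
      intro u hu0 hu1
      rw [pth_w N hN0 e' u hu0 hu1, sub_self, abs_zero])
    have h4 := abs_nonneg (F (walk N e') - F (pth (ctr (θw N)) (τw N) N e'))
    have h5 : |F (walk N e') - F (pth (ctr (θw N)) (τw N) N e')| = 0 := le_antisymm h3 h4
    rw [abs_eq_zero] at h5
    linarith
  rw [sum_congr rfl fun e' _ => h2 e']
  exact hY3 F hF

end walk

end Pool.Agent.K4H10.DN
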